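import Pool.Agent.Helper12.XG.St2

/-!
# Project XG (MP_627c93_nt): the main theorem in its strongest form
-/

set_option autoImplicit false

namespace Pool.Agent.Helper12.XG

open Finset Polynomial Pool.Agent.Helper14.GS Pool.Agent.Helper10.EP

/-- **MAX** (main theorem, all sets `P` containing the primes `≤ y`, finite or infinite; bases up to
`exp ((log y)^C)`): finitely many consecutive `x < z` whose quotient `z / x` is a quotient of two
prime powers. -/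
def StMAX : Prop :=
  ∀ C : ℕ, ∃ y₀ : ℕ, ∀ y : ℕ, y₀ ≤ y → ∀ P : Set ℕ, (∀ p ∈ P, p.Prime) →
    (∀ p : ℕ, p.Prime → p ≤ y → p ∈ P) →
    {xz : ℕ × ℕ | Consecutive P xz.1 xz.2 ∧ ∃ g p q a b : ℕ, p.Prime ∧ q.Prime ∧
      Real.log p ≤ Real.log y ^ C ∧ Real.log q ≤ Real.log y ^ C ∧
      xz.1 = g * p ^ a ∧ xz.2 = g * q ^ b}.Finite

/-- common constants -/
private lemma const_MAX (Γ B : ℝ) (hT : ∀ p q : ℕ, p.Prime → q.Prime → p ≠ q →
      ∃ c : ℝ, 0 < c ∧ ∀ a b : ℕ, 1 ≤ a → 1 ≤ b →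
        c * ((a : ℝ) + b) ^ (-(Γ * (Real.log p + Real.log q) ^ 2)) ≤
          |a * Real.log p - b * Real.log q|)
    (P₀ : Finset ℕ) (hP₀ : ∀ p ∈ P₀, p.Prime)
    (hB : ∀ p ∈ P₀, ∀ q ∈ P₀, Γ * (Real.log p + Real.log q) ^ 2 ≤ B) :
    ∃ c : ℝ, 0 < c ∧ ∀ p ∈ P₀, ∀ q ∈ P₀, p ≠ q → ∀ a b : ℕ, 1 ≤ a → 1 ≤ b →
      c * ((a : ℝ) + b) ^ (-B) ≤ |a * Real.log p - b * Real.log q| := by
  classical
  have h : ∀ x : ℕ × ℕ, ∃ c : ℝ, 0 < c ∧ (x.1 ∈ P₀ → x.2 ∈ P₀ → x.1 ≠ x.2 →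
      ∀ a b : ℕ, 1 ≤ a → 1 ≤ b →
      c * ((a : ℝ) + b) ^ (-B) ≤ |a * Real.log x.1 - b * Real.log x.2|) := by
    intro x
    by_cases hx : x.1 ∈ P₀ ∧ x.2 ∈ P₀ ∧ x.1 ≠ x.2
    · obtain ⟨c, h2, h3⟩ := hT x.1 x.2 (hP₀ _ hx.1) (hP₀ _ hx.2.1) hx.2.2
      refine ⟨c, h2, fun _ _ _ a b ha hb => le_trans ?_ (h3 a b ha hb)⟩
      have hab : (1 : ℝ) ≤ (a : ℝ) + b := by
        have h1 : (1 : ℝ) ≤ a := by exact_mod_cast ha
        have h2 : (0 : ℝ) ≤ b := Nat.cast_nonneg b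
        linarith
      refine mul_le_mul_of_nonneg_left ?_ h2.le
      refine Real.rpow_le_rpow_of_exponent_le hab ?_
      have := hB _ hx.1 _ hx.2.1
      linarith
    · exact ⟨1, one_pos, fun h1 h2 h3 => absurd ⟨h1, h2, h3⟩ hx⟩
  choose cf hc hh using h
  have hS2 : ∀ x ∈ P₀ ×ˢ P₀, 1 / cf x ≤ ∑ x ∈ P₀ ×ˢ P₀, 1 / cf x := fun x hx =>
    Finset.single_le_sum (f := fun x => 1 / cf x)
      (fun i _ => (one_div_pos.2 (hc i)).le) hx
  have hS4 : 0 ≤ ∑ x ∈ P₀ ×ˢ P₀, 1 / cf x :=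
    Finset.sum_nonneg fun i _ => (one_div_pos.2 (hc i)).le
  refine ⟨1 / (1 + ∑ x ∈ P₀ ×ˢ P₀, 1 / cf x), by positivity, ?_⟩
  intro p hp q hq hpq a b ha hb
  refine le_trans ?_ (hh (p, q) hp hq hpq a b ha hb)
  have hx : (p, q) ∈ P₀ ×ˢ P₀ := Finset.mk_mem_product hp hq
  have e1 : 1 / (1 + ∑ x ∈ P₀ ×ˢ P₀, 1 / cf x) ≤ cf (p, q) := by
    rw [div_le_iff₀ (by positivity)]
    have h1 := hS2 _ hx
    have h2 := hc (p, q)
    have h3 : cf (p, q) * (1 / cf (p, q)) = 1 := by field_simp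
    have h4 : cf (p, q) * (1 / cf (p, q)) ≤ cf (p, q) * (1 + ∑ x ∈ P₀ ×ˢ P₀, 1 / cf x) :=
      mul_le_mul_of_nonneg_left (by linarith) h2.le
    linarith
  exact mul_le_mul_of_nonneg_right e1 (by positivity)

/-- the arithmetic part -/
private lemma arith_MAX (g p q a b x z : ℕ) (hp : p.Prime) (hq : q.Prime) (hx : x = g * p ^ a)
    (hz : z = g * q ^ b) (hx0 : 0 < x) (hxz : x < z) :
    (Real.log 2 ≤ Real.log z - Real.log x) ∨
    (p ≠ q ∧ 1 ≤ a ∧ 1 ≤ b ∧ Real.log z - Real.log x = b * Real.log q - a * Real.log p ∧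
      a * Real.log p ≤ Real.log x ∧ b * Real.log q ≤ Real.log z) := by
  have hg0 : 0 < g := Nat.pos_of_ne_zero (by rintro rfl; simp at hx; omega)
  have hpa : 0 < p ^ a := Nat.pos_of_ne_zero (pow_ne_zero _ hp.ne_zero)
  have hqb : 0 < q ^ b := Nat.pos_of_ne_zero (pow_ne_zero _ hq.ne_zero)
  have hlt : p ^ a < q ^ b := by
    rw [hx, hz] at hxz
    exact lt_of_mul_lt_mul_left hxz (Nat.zero_le _)
  have hlx : Real.log x = Real.log g + a * Real.log p := by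
    rw [hx]
    push_cast
    rw [Real.log_mul (by exact_mod_cast hg0.ne') (by exact_mod_cast hpa.ne'), Real.log_pow]
  have hlz : Real.log z = Real.log g + b * Real.log q := by
    rw [hz]
    push_cast
    rw [Real.log_mul (by exact_mod_cast hg0.ne') (by exact_mod_cast hqb.ne'), Real.log_pow]
  have hlg : 0 ≤ Real.log g := Real.log_natCast_nonneg g
  have hlp : 0 ≤ Real.log p := Real.log_natCast_nonneg p
  have hlq : Real.log 2 ≤ Real.log q :=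
    Real.log_le_log (by norm_num) (by exact_mod_cast hq.two_le)
  have hl2 : 0 < Real.log 2 := Real.log_pos (by norm_num)
  have hb1 : 1 ≤ b := by
    by_contra h
    have : b = 0 := by omega
    rw [this, pow_zero] at hlt
    omega
  have hb1' : (1 : ℝ) ≤ b := by exact_mod_cast hb1
  rcases Nat.eq_zero_or_pos a with ha | ha
  · left
    rw [hlx, hlz, ha]
    simp only [Nat.cast_zero, zero_mul, add_zero]
    nlinarith
  by_cases hpq : p = q
  · left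
    subst hpq
    have hab : a < b := (Nat.pow_lt_pow_iff_right hp.one_lt).1 hlt
    have h1 : (a : ℝ) + 1 ≤ b := by exact_mod_cast hab
    rw [hlx, hlz]
    nlinarith
  · right
    refine ⟨hpq, ha, hb1, ?_, ?_, ?_⟩
    · rw [hlx, hlz]
      ring
    · rw [hlx]
      linarith
    · rw [hlz]
      linarith

/-- finiteness from `Gap (C+1) y` and a lower bound with exponent `C` -/
private lemma fin_MAX (y : ℕ) (hy : 2 ≤ y) (C c : ℝ) (hC : 0 ≤ C) (hc : 0 < c)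
    (hg : Gap (C + 1) y) (P : Set ℕ) (hPy : ∀ p : ℕ, p.Prime → p ≤ y → p ∈ P) (P₀ : Finset ℕ)
    (hlog : ∀ p ∈ P₀, ∀ q ∈ P₀, p ≠ q → ∀ a b : ℕ, 1 ≤ a → 1 ≤ b →
      c * ((a : ℝ) + b) ^ (-C) ≤ |a * Real.log p - b * Real.log q|) :
    {xz : ℕ × ℕ | Consecutive P xz.1 xz.2 ∧ ∃ g p q a b : ℕ, p.Prime ∧ q.Prime ∧ p ∈ P₀ ∧ q ∈ P₀ ∧
      xz.1 = g * p ^ a ∧ xz.2 = g * q ^ b}.Finite := by
  obtain ⟨X₀, hX₀, hgap⟩ := hg
  obtain ⟨X₁, hX₁⟩ : ∃ X₁ : ℝ, X₁ = max X₀ (max 2 (6 ^ C / c)) := ⟨_, rfl⟩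
  have hb1 : X₀ ≤ X₁ := by rw [hX₁]; exact le_max_left _ _
  have hb2 : 2 ≤ X₁ := by rw [hX₁]; exact (le_max_left _ _).trans (le_max_right _ _)
  have hb3 : 6 ^ C / c ≤ X₁ := by rw [hX₁]; exact (le_max_right _ _).trans (le_max_right _ _)
  have hlog2 : (1 : ℝ) / 2 < Real.log 2 := by
    have := Real.log_two_gt_d9
    linarith
  have key : ∀ x z : ℕ, Consecutive P x z → (∃ g p q a b : ℕ, p.Prime ∧ q.Prime ∧ p ∈ P₀ ∧
      q ∈ P₀ ∧ x = g * p ^ a ∧ z = g * q ^ b) → Real.log x < X₁ := by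
    rintro x z ⟨hxP, hzP, hxz, hcons⟩ ⟨g, r, s, a, b, hrp, hsp, hrP, hsP, hx, hz⟩
    by_contra hcon
    push Not at hcon
    obtain ⟨X, hX⟩ : ∃ X : ℝ, X = Real.log x := ⟨_, rfl⟩
    rw [← hX] at hcon
    obtain ⟨m, hm1, hmy, hm2, hm3⟩ := hgap X (hb1.trans hcon)
    have hmP : m ∈ SUnit P := ⟨hm1, fun t ht htd => hPy t ht (hmy t ht htd)⟩
    have hx0 : (0 : ℝ) < x := by exact_mod_cast hxP.1
    have hz0 : (0 : ℝ) < z := by exact_mod_cast hzP.1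
    have hm0 : (0 : ℝ) < m := by exact_mod_cast hm1
    have hxm : x < m := by
      rw [hX] at hm2
      have := (Real.log_lt_log_iff hx0 hm0).1 hm2
      exact_mod_cast this
    have hzm : z ≤ m := by
      rcases hcons m hmP with h | h
      · omega
      · exact h
    have hlzm : Real.log z ≤ Real.log m := Real.log_le_log hz0 (by exact_mod_cast hzm)
    have hX2 : 2 ≤ X := hb2.trans hcon
    have hX0 : 0 < X := by linarith
    have hd : Real.log z - Real.log x < X ^ (-(C + 1)) := by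
      rw [← hX]
      linarith
    have hinv : X ^ (-(C + 1)) = X ^ (-C) * X⁻¹ := by
      rw [show -(C + 1) = -C + -1 by ring, Real.rpow_add hX0, Real.rpow_neg_one]
    have hXC : X ^ (-C) ≤ 1 := Real.rpow_le_one_of_one_le_of_nonpos (by linarith) (by linarith)
    have hXi : X⁻¹ ≤ 1 / 2 := by
      rw [inv_eq_one_div]
      exact one_div_le_one_div_of_le (by norm_num) hX2
    have hXi0 : 0 < X⁻¹ := inv_pos.2 hX0
    have hXC0 : 0 < X ^ (-C) := Real.rpow_pos_of_pos hX0 _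
    have hsmall : X ^ (-(C + 1)) ≤ 1 / 2 := by
      rw [hinv]
      nlinarith
    rcases arith_MAX g r s a b x z hrp hsp hx hz hxP.1 hxz with h | ⟨hrs, ha, hb, he, h1, h2⟩
    · linarith
    · have hl := hlog s hsP r hrP hrs.symm b a hb ha
      rw [← he, abs_of_pos (by
        have := (Real.log_lt_log_iff hx0 hz0).2 (by exact_mod_cast hxz)
        linarith)] at hl
      have hr2 : Real.log 2 ≤ Real.log r := Real.log_le_log (by norm_num)
        (by exact_mod_cast hrp.two_le)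
      have hs2 : Real.log 2 ≤ Real.log s := Real.log_le_log (by norm_num)
        (by exact_mod_cast hsp.two_le)
      have ha0 : (1 : ℝ) ≤ a := by exact_mod_cast ha
      have hb0 : (1 : ℝ) ≤ b := by exact_mod_cast hb
      have ha2 : (a : ℝ) ≤ 2 * X := by
        have : (a : ℝ) * (1 / 2) ≤ a * Real.log r :=
          mul_le_mul_of_nonneg_left (by linarith) (by linarith)
        rw [hX]
        linarith
      have hb2' : (b : ℝ) ≤ 4 * X := by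
        have h3 : (b : ℝ) * (1 / 2) ≤ b * Real.log s :=
          mul_le_mul_of_nonneg_left (by linarith) (by linarith)
        have h4 : Real.log z ≤ 2 * X := by linarith
        linarith
      have hab : ((b : ℝ) + a) ≤ 6 * X := by linarith
      have h5 : (6 * X) ^ (-C) ≤ ((b : ℝ) + a) ^ (-C) :=
        Real.rpow_le_rpow_of_nonpos (by linarith) hab (by linarith)
      have h6 : c * (6 * X) ^ (-C) < X ^ (-C) * X⁻¹ := by
        rw [← hinv]
        calc c * (6 * X) ^ (-C) ≤ c * ((b : ℝ) + a) ^ (-C) := mul_le_mul_of_nonneg_left h5 hc.le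
          _ ≤ _ := hl
          _ < _ := hd
      rw [Real.mul_rpow (by norm_num) hX0.le, Real.rpow_neg (by norm_num : (0 : ℝ) ≤ 6)] at h6
      have h7 : c * ((6 : ℝ) ^ C)⁻¹ < X⁻¹ := by
        have : X ^ (-C) * (c * ((6 : ℝ) ^ C)⁻¹) < X ^ (-C) * X⁻¹ := by
          calc X ^ (-C) * (c * ((6 : ℝ) ^ C)⁻¹) = c * (((6 : ℝ) ^ C)⁻¹ * X ^ (-C)) := by ring
            _ < _ := h6
        exact lt_of_mul_lt_mul_left this hXC0.le
      have h60 : (0 : ℝ) < 6 ^ C := by positivity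
      have h8 : X < 6 ^ C / c := by
        rw [lt_div_iff₀ hc]
        have : X * (c * ((6 : ℝ) ^ C)⁻¹) * 6 ^ C < X * X⁻¹ * 6 ^ C :=
          mul_lt_mul_of_pos_right (mul_lt_mul_of_pos_left h7 hX0) h60
        rw [mul_inv_cancel₀ hX0.ne', one_mul] at this
        calc X * c = X * (c * ((6 : ℝ) ^ C)⁻¹) * 6 ^ C := by field_simp
          _ < _ := this
      linarith
  obtain ⟨B, hB⟩ : ∃ B : ℕ, B = ⌊Real.exp X₁⌋₊ := ⟨_, rfl⟩
  refine Set.Finite.subset (((Finset.range (B + 1)) ×ˢ (Finset.range (2 * B + 1))).finite_toSet) ?_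
  rintro ⟨x, z⟩ ⟨hcon, hex⟩
  have hlt := key x z hcon hex
  obtain ⟨hxP, hzP, hxz, hcons⟩ := hcon
  simp only at hxP hzP hxz hcons hlt
  have hx0 : (0 : ℝ) < x := by exact_mod_cast hxP.1
  have hxB : x ≤ B := by
    rw [hB]
    refine Nat.le_floor ?_
    exact ((Real.log_lt_iff_lt_exp hx0).1 hlt).le
  have h2x : 2 * x ∈ SUnit P := by
    refine ⟨Nat.mul_pos (by norm_num) hxP.1, fun t ht htd => ?_⟩
    rcases (Nat.Prime.dvd_mul ht).1 htd with h | h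
    · rw [(Nat.prime_dvd_prime_iff_eq ht Nat.prime_two).1 h]
      exact hPy 2 Nat.prime_two (by omega)
    · exact hxP.2 t ht h
  have hz2 : z ≤ 2 * x := by
    rcases hcons _ h2x with h | h
    · have := hxP.1
      omega
    · exact h
  simp only [Finset.coe_product, Finset.coe_range, Set.mem_prod, Set.mem_Iio]
  omega

/-- **MAX** (main theorem). -/
theorem hMAX (h1 : StGAP) (h2 : StTWL) : StMAX := by
  intro C
  obtain ⟨Γ, hΓ, hT⟩ := h2
  obtain ⟨y₀, hy₀⟩ := h1 (2 * C + 1)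
  refine ⟨max y₀ ⌈Real.exp (4 * Γ + 1)⌉₊, fun y hy P hP hPy => ?_⟩
  have hyy : y₀ ≤ y := le_trans (le_max_left _ _) hy
  have hye : Real.exp (4 * Γ + 1) ≤ y := by
    have h3 : ⌈Real.exp (4 * Γ + 1)⌉₊ ≤ y := le_trans (le_max_right _ _) hy
    exact le_trans (Nat.le_ceil _) (by exact_mod_cast h3)
  have hexp : 4 * Γ + 1 + 1 ≤ Real.exp (4 * Γ + 1) := Real.add_one_le_exp _
  have hy2 : 2 ≤ y := by
    have : (2 : ℝ) ≤ y := by linarith
    exact_mod_cast this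
  have hy0 : (0 : ℝ) < y := by
    have : (2 : ℝ) ≤ y := by exact_mod_cast hy2
    linarith
  obtain ⟨L, hL⟩ : ∃ L : ℝ, L = Real.log y := ⟨_, rfl⟩
  have hL1 : 4 * Γ + 1 ≤ L := by
    rw [hL, Real.le_log_iff_exp_le hy0]
    exact hye
  have hL0 : 1 ≤ L := by linarith
  have hpw : 1 ≤ L ^ (2 * C) := one_le_pow₀ hL0
  have hA : 4 * Γ * L ^ (2 * C) + 1 ≤ L ^ (2 * C + 1) := by
    rw [pow_succ]
    nlinarith
  obtain ⟨P₀, hP₀⟩ : ∃ P₀ : Finset ℕ, P₀ = (range (⌊Real.exp (L ^ C)⌋₊ + 1)).filter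
      (fun (p : ℕ) => p.Prime ∧ Real.log p ≤ L ^ C) := ⟨_, rfl⟩
  have hmem : ∀ p : ℕ, p.Prime → Real.log p ≤ L ^ C → p ∈ P₀ := by
    intro p hp hpl
    rw [hP₀, mem_filter, mem_range]
    refine ⟨?_, hp, hpl⟩
    have hp0 : (0 : ℝ) < p := by exact_mod_cast hp.pos
    exact Nat.lt_succ_of_le (Nat.le_floor ((Real.log_le_iff_le_exp hp0).1 hpl))
  have hP₀p : ∀ p ∈ P₀, p.Prime := fun p hp => by
    rw [hP₀, mem_filter] at hp
    exact hp.2.1
  have hP₀l : ∀ p ∈ P₀, Real.log p ≤ L ^ C := fun p hp => by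
    rw [hP₀, mem_filter] at hp
    exact hp.2.2
  have hB : ∀ p ∈ P₀, ∀ q ∈ P₀, Γ * (Real.log p + Real.log q) ^ 2 ≤ L ^ (2 * C + 1) - 1 := by
    intro p hp q hq
    have e1 := hP₀l p hp
    have e2 := hP₀l q hq
    have e3 : 0 ≤ Real.log p := Real.log_natCast_nonneg p
    have e4 : 0 ≤ Real.log q := Real.log_natCast_nonneg q
    have e5 : (Real.log p + Real.log q) ^ 2 ≤ (2 * L ^ C) ^ 2 :=
      pow_le_pow_left₀ (by linarith) (by linarith) 2
    have e6 : (2 * L ^ C) ^ 2 = 4 * L ^ (2 * C) := by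
      rw [mul_pow, ← pow_mul, mul_comm C 2]
      norm_num
    have e7 : Γ * (Real.log p + Real.log q) ^ 2 ≤ Γ * (4 * L ^ (2 * C)) := by
      rw [← e6]
      exact mul_le_mul_of_nonneg_left e5 hΓ.le
    linarith
  obtain ⟨c, hc, hlog⟩ := const_MAX Γ (L ^ (2 * C + 1) - 1) hT P₀ hP₀p hB
  have hg := hy₀ y hyy
  rw [← hL] at hg
  have hC0 : 0 ≤ L ^ (2 * C + 1) - 1 := by
    have : 0 ≤ 4 * Γ * L ^ (2 * C) := by positivity
    linarith
  have hg' : Gap (L ^ (2 * C + 1) - 1 + 1) y := by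
    rw [sub_add_cancel]
    exact hg
  refine (fin_MAX y hy2 (L ^ (2 * C + 1) - 1) c hC0 hc hg' P hPy P₀ hlog).subset ?_
  rintro ⟨x, z⟩ ⟨hcon, g, p, q, a, b, hp, hq, hpl, hql, hx, hz⟩
  rw [← hL] at hpl hql
  exact ⟨hcon, g, p, q, a, b, hp, hq, hmem p hp hpl, hmem q hq hql, hx, hz⟩

theorem stMAI_of_stMAX (h : StMAX) : StMAI := by
  intro C
  obtain ⟨y₀, hy₀⟩ := h C
  refine ⟨y₀, fun y hy P hP hPy hPC => ?_⟩
  refine (hy₀ y hy (P : Set ℕ) hP hPy).subset ?_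
  rintro ⟨x, z⟩ ⟨hcon, hx, hz⟩
  obtain ⟨r, a, hr, ha, hxe⟩ := (isPrimePow_nat_iff _).1 hx
  obtain ⟨s, b, hs, hb, hze⟩ := (isPrimePow_nat_iff _).1 hz
  refine ⟨hcon, 1, r, s, a, b, hr, hs, ?_, ?_, ?_, ?_⟩
  · exact hPC r (by exact_mod_cast hcon.1.2 r hr (hxe ▸ dvd_pow_self r (by omega)))
  · exact hPC s (by exact_mod_cast hcon.2.1.2 s hs (hze ▸ dvd_pow_self s (by omega)))
  · rw [one_mul]
    exact hxe.symm
  · rw [one_mul]
    exact hze.symm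

/-- The same theorem in terms of the first `k` primes. -/
theorem maxK (h : StMAX) : ∀ C : ℕ, ∃ k₀ : ℕ, ∀ k : ℕ, k₀ ≤ k → ∀ P : Set ℕ,
    (∀ p ∈ P, p.Prime) → (∀ i < k, Nat.nth Nat.Prime i ∈ P) →
    {xz : ℕ × ℕ | Consecutive P xz.1 xz.2 ∧ ∃ g p q a b : ℕ, p.Prime ∧ q.Prime ∧
      Real.log p ≤ Real.log (Nat.nth Nat.Prime (k - 1)) ^ C ∧
      Real.log q ≤ Real.log (Nat.nth Nat.Prime (k - 1)) ^ C ∧
      xz.1 = g * p ^ a ∧ xz.2 = g * q ^ b}.Finite ∧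
    ((∀ p ∈ P, Real.log p ≤ Real.log (Nat.nth Nat.Prime (k - 1)) ^ C) →
      {xz : ℕ × ℕ | Consecutive P xz.1 xz.2 ∧ IsPrimePow xz.1 ∧ IsPrimePow xz.2}.Finite) := by
  intro C
  obtain ⟨y₀, hy₀⟩ := h C
  refine ⟨max y₀ 1, fun k hk P hP hPk => ?_⟩
  have hk1 : 1 ≤ k := (le_max_right _ _).trans hk
  have hky : y₀ ≤ Nat.nth Nat.Prime (k - 1) := by
    have h1 : k - 1 + 2 ≤ Nat.nth Nat.Prime (k - 1) := Nat.add_two_le_nth_prime (k - 1)
    have h2 : y₀ ≤ k := (le_max_left _ _).trans hk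
    omega
  have hsub : ∀ p : ℕ, p.Prime → p ≤ Nat.nth Nat.Prime (k - 1) → p ∈ P := by
    intro p hp hpk
    have h1 : Nat.nth Nat.Prime (Nat.count Nat.Prime p) = p := Nat.nth_count hp
    rw [← h1]
    refine hPk _ ?_
    have h2 : Nat.count Nat.Prime p ≤ k - 1 := by
      rw [← h1] at hpk
      exact (Nat.nth_le_nth Nat.infinite_setOfPred_prime).1 hpk
    omega
  have hfin := hy₀ _ hky P hP hsub
  refine ⟨hfin, fun hPC => hfin.subset ?_⟩
  rintro ⟨x, z⟩ ⟨hcon, hx, hz⟩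
  obtain ⟨r, a, hr, ha, hxe⟩ := (isPrimePow_nat_iff _).1 hx
  obtain ⟨s, b, hs, hb, hze⟩ := (isPrimePow_nat_iff _).1 hz
  refine ⟨hcon, 1, r, s, a, b, hr, hs, ?_, ?_, ?_, ?_⟩
  · exact hPC r (hcon.1.2 r hr (hxe ▸ dvd_pow_self r (by omega)))
  · exact hPC s (hcon.2.1.2 s hs (hze ▸ dvd_pow_self s (by omega)))
  · rw [one_mul]
    exact hxe.symm
  · rw [one_mul]
    exact hze.symm

end Pool.Agent.Helper12.XG
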