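import Pool.Agent.Helper12.XG.St2
import Pool.Agent.Helper14.GS.Fin1
import Pool.Agent.Helper81.XG.M_SIG
import Pool.Agent.Helper95.XG.M_CHD
import Pool.Agent.Helper26.XG.M_CHG
import Pool.Agent.Helper10.XG.M_THE
import Pool.Agent.Helper75.XG.M_HCA
import Pool.Agent.Helper8.XG.M_PAI
import Pool.Agent.Helper27.XG.M_ORD
import Pool.Agent.Helper64.XG.M_TOP
import Pool.Agent.Helper30.XG.M_TOI
import Pool.Agent.Helper6.XG.M_ARI
import Pool.Agent.Helper58.XG.M_NUE
import Pool.Agent.Helper42.XG.M_NIN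
import Pool.Agent.Helper7.XG.M_PFE
import Pool.Agent.Helper33.XG.M_PFB
import Pool.Agent.Helper40.XG.M_RES
import Pool.Agent.Helper18.XG.M_PRE
import Pool.Agent.Helper51.XG.M_GAM
import Pool.Agent.Helper89.XG.M_PRO
import Pool.Agent.Helper21.XG.M_KIN
import Pool.Agent.Helper15.XG.M_FIN
import Pool.Agent.Helper47.XG.M_COR
import Pool.Agent.Helper87.XG.M_DWN
import Pool.Agent.Helper28.XG.M_NU1
import Pool.Agent.Helper60.XG.M_NU2
import Pool.Agent.Helper34.XG.M_NU3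
import Pool.Agent.Helper33.XG.M_NU4
import Pool.Agent.Helper7.XG.M_NU5
import Pool.Agent.Helper47.XG.M_PAR
import Pool.Agent.Helper84.XG.M_SIL
import Pool.Agent.Helper63.XG.M_SIM
import Pool.Agent.Helper21.XG.M_GPB
import Pool.Agent.Helper32.XG.M_GAP
import Pool.Agent.Helper37.XG.M_TWN
import Pool.Agent.Helper15.XG.M_TWL
import Pool.Agent.Helper12.XG.Max
import Pool.Agent.Helper14.XG.M_KPR

/-!
# Project XG (MP_627c93_nt): assembly
-/

set_option autoImplicit false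

namespace Pool.Agent.Helper12.XG

open Pool.Agent.Helper14.GS

theorem stORD : StORD :=
  Pool.Agent.Helper27.XG.hORD
    (Pool.Agent.Helper10.XG.hTHE Pool.Agent.Helper95.XG.hCHD Pool.Agent.Helper26.XG.hCHG)
    Pool.Agent.Helper75.XG.hHCA Pool.Agent.Helper8.XG.hPAI

theorem stPRO : StPRO :=
  Pool.Agent.Helper89.XG.hPRO
    (Pool.Agent.Helper51.XG.hGAM Pool.Agent.Helper7.XG.hPFE Pool.Agent.Helper33.XG.hPFB
      Pool.Agent.Helper18.XG.hPRE)
    Pool.Agent.Helper40.XG.hRES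

theorem stFIN : StFIN :=
  Pool.Agent.Helper15.XG.hFIN Pool.Agent.Helper7.XG.hPFE Pool.Agent.Helper33.XG.hPFB
    Pool.Agent.Helper40.XG.hRES Pool.Agent.Helper8.XG.hPAI Pool.Agent.Helper21.XG.hKIN

theorem stNIN : StNIN :=
  Pool.Agent.Helper42.XG.hNIN (Pool.Agent.Helper6.XG.hARI Pool.Agent.Helper42.GS.A2)

theorem stDWN : StDWN := Pool.Agent.Helper87.XG.hDWN Pool.Agent.Helper47.XG.hCOR stPRO

/-- the logarithms of the primes `≤ y` are not simultaneously well approximable: exponent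
`1 / (log y)^r` -/
theorem stSIM : StSIM :=
  Pool.Agent.Helper63.XG.hSIM
    (Pool.Agent.Helper84.XG.hSIL Pool.Agent.Helper14.GS.A3 Pool.Agent.Helper81.XG.hSIG stORD
      (Pool.Agent.Helper30.XG.hTOI Pool.Agent.Helper64.XG.hTOP) Pool.Agent.Helper58.XG.hNUE stNIN
      stDWN stFIN Pool.Agent.Helper28.XG.hNU1 Pool.Agent.Helper60.XG.hNU2
      Pool.Agent.Helper34.XG.hNU3 Pool.Agent.Helper33.XG.hNU4 Pool.Agent.Helper7.XG.hNU5
      Pool.Agent.Helper47.XG.hPAR)

/-- gaps between `y`-smooth numbers: exponent `(log y)^r` -/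
theorem stGAP : StGAP :=
  Pool.Agent.Helper32.XG.hGAP stSIM
    (Pool.Agent.Helper21.XG.hGPB Pool.Agent.Helper72.GS.B5
      (Pool.Agent.Helper91.GS.B6 (Pool.Agent.Helper8.GS.B2 Pool.Agent.Helper8.GS.B1)
        Pool.Agent.Helper8.GS.B3 Pool.Agent.Helper8.GS.B4))

theorem stD11 : StD11 :=
  Pool.Agent.Helper61.GS.D11 Pool.Agent.Helper80.GS.D1 Pool.Agent.Helper24.GS.D2
    (Pool.Agent.Helper90.GS.D5 Pool.Agent.Helper16.GS.D3 Pool.Agent.Helper47.GS.D4)
    (Pool.Agent.Helper90.GS.D9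
      (Pool.Agent.Helper74.GS.D8 Pool.Agent.Helper81.GS.D6 Pool.Agent.Helper84.GS.D7))
    Pool.Agent.Helper57.GS.D10

/-- linear forms in the logarithms of two primes, explicit exponent -/
theorem stTWL : StTWL :=
  Pool.Agent.Helper15.XG.hTWL stD11 Pool.Agent.Helper37.XG.hTWN Pool.Agent.Helper14.GS.A3

/-- the main theorem -/
theorem stMAX : StMAX := hMAX stGAP stTWL

theorem stMAI : StMAI := stMAI_of_stMAX stMAX

/-- the first `k` primes -/
theorem stKPR : StKPR := Pool.Agent.Helper14.XG.hKPR stMAI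

end Pool.Agent.Helper12.XG
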