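import Mathlib
import Pool.Agent.Helper14.GS.Defs

/-!
# Project XG (MP_627c93_nt): finitely many consecutive prime powers for all large `k`; definitions

Conventions: a family `β : ℕ → ℕ → ℤ` of integers `β j b`, `j ≤ h` (nodes `-j`), `b < q`; it stands
for the rational function `f(u) = ∑_{j ≤ h} ∑_{b < q} β j b / (u + j)^(b+1)`.
-/

set_option autoImplicit false

namespace Pool.Agent.Helper12.XG

open Finset Polynomial

/-- The `k`-th moment of `f`: the coefficient of `u^(-k-1)` in the expansion of `f` at infinity. -/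
def mom (h q : ℕ) (β : ℕ → ℕ → ℤ) (k : ℕ) : ℤ :=
  ∑ j ∈ range (h + 1), ∑ b ∈ range q, β j b * ((k.choose b : ℤ) * (-(j : ℤ)) ^ (k - b))

/-- The `i`-th Taylor coefficient `f^(i)(u) / i!`. -/
noncomputable def fI (h q : ℕ) (β : ℕ → ℕ → ℤ) (i : ℕ) (u : ℝ) : ℝ :=
  ∑ j ∈ range (h + 1), ∑ b ∈ range q,
    (β j b : ℝ) * ((-1) ^ i * ((b + i).choose i : ℝ)) * ((u + (j : ℝ))⁻¹) ^ (b + 1 + i)

/-- The integral `∫_0^1 (x (1-x))^(2q) f^(i)(N+x)/i! dx`. -/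
noncomputable def Phi (h q : ℕ) (β : ℕ → ℕ → ℤ) (i N : ℕ) : ℝ :=
  ∫ x in (0 : ℝ)..1, x ^ (2 * q) * (1 - x) ^ (2 * q) * fI h q β i ((N : ℝ) + x)

/-- The function `A(z) / ∏_{k<n} (z - a_k)^(m_k)`. -/
noncomputable def RF (n : ℕ) (a : ℕ → ℝ) (m : ℕ → ℕ) (A : ℂ[X]) (z : ℂ) : ℂ :=
  A.eval z / ∏ k ∈ range n, (z - (a k : ℂ)) ^ (m k)

/-- The denominator as a polynomial. -/
noncomputable def DP (n : ℕ) (a : ℕ → ℝ) (m : ℕ → ℕ) : ℂ[X] :=
  ∏ k ∈ range n, (X - C (a k : ℂ)) ^ (m k)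

end Pool.Agent.Helper12.XG
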