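import Pool.Agent.Helper12.XG.Asm

/-!
# Project XG (MP_627c93_nt): the theorem of the earlier hand-in SmallBasesFinite is a special case
-/

set_option autoImplicit false

namespace Pool.Agent.Helper12.XG

open Pool.Agent.Helper10.EP

/-- two elements `x < z ≤ 2 x` of `⟨{p, q}⟩` -/
private lemma two_bases (p q x z : ℕ) (hx : x ∈ SUnit {p, q}) (hz : z ∈ SUnit {p, q})
    (hxz : x < z) (hz2 : z ≤ 2 * x) : ∃ g r s a b : ℕ, r.Prime ∧ s.Prime ∧
      (r ∈ ({p, q} : Set ℕ) ∨ r = 2) ∧ (s ∈ ({p, q} : Set ℕ) ∨ s = 2) ∧ x = g * r ^ a ∧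
      z = g * s ^ b := by
  obtain ⟨hx0, hxp⟩ := hx
  obtain ⟨hz0, hzp⟩ := hz
  obtain ⟨g, x', z', hg0, hcop, hxe, hze⟩ := Nat.exists_coprime' (m := x) (n := z)
    (Nat.gcd_pos_of_pos_left _ hx0)
  have hx'0 : 0 < x' := Nat.pos_of_ne_zero (by rintro rfl; simp at hxe; omega)
  have hz'0 : 0 < z' := Nat.pos_of_ne_zero (by rintro rfl; simp at hze; omega)
  have hlt : x' < z' := by
    rw [hxe, hze] at hxz
    exact lt_of_mul_lt_mul_right hxz (Nat.zero_le _)
  rcases Nat.lt_or_ge 1 x' with h1 | h1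
  · obtain ⟨r, hr, hrd⟩ := Nat.exists_prime_and_dvd (show x' ≠ 1 by omega)
    obtain ⟨s, hs, hsd⟩ := Nat.exists_prime_and_dvd (show z' ≠ 1 by omega)
    have hxd : x' ∣ x := ⟨g, hxe⟩
    have hzd : z' ∣ z := ⟨g, hze⟩
    have hrm := hxp r hr (hrd.trans hxd)
    have hsm := hzp s hs (hsd.trans hzd)
    have hno : ∀ t : ℕ, t.Prime → t ∣ x' → t ∣ z' → False := by
      intro t ht h1 h2
      have := Nat.dvd_gcd h1 h2
      rw [hcop] at this
      exact ht.one_lt.ne' (Nat.dvd_one.1 this)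
    have hrs : r ≠ s := by
      rintro rfl
      exact hno r hr hrd hsd
    have htwo : ∀ t ∈ ({p, q} : Set ℕ), t = r ∨ t = s := by
      intro t ht
      rcases ht with rfl | ht
      · rcases hrm with rfl | hr2
        · exact Or.inl rfl
        · rcases hsm with rfl | hs2
          · exact Or.inr rfl
          · exact absurd (hr2.trans hs2.symm) hrs
      · rcases hrm with hr1 | hr2
        · rcases hsm with hs1 | hs2
          · exact absurd (hr1.trans hs1.symm) hrs
          · exact Or.inr (ht.trans hs2.symm)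
        · exact Or.inl (ht.trans hr2.symm)
    have hxr := Nat.eq_prime_pow_of_unique_prime_dvd (n := x') (p := r) hx'0.ne' (by
      intro t ht htd
      rcases htwo t (hxp t ht (htd.trans hxd)) with h | h
      · exact h
      · exact (hno s hs (h ▸ htd) hsd).elim)
    have hzs := Nat.eq_prime_pow_of_unique_prime_dvd (n := z') (p := s) hz'0.ne' (by
      intro t ht htd
      rcases htwo t (hzp t ht (htd.trans hzd)) with h | h
      · exact (hno r hr hrd (h ▸ htd)).elim
      · exact h)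
    refine ⟨g, r, s, x'.primeFactorsList.length, z'.primeFactorsList.length, hr, hs, Or.inl hrm,
      Or.inl hsm, ?_, ?_⟩
    · rw [← hxr, hxe, mul_comm]
    · rw [← hzs, hze, mul_comm]
  · have hx1 : x' = 1 := by omega
    have hz2' : z' ≤ 2 := by
      rw [hxe, hze, hx1] at hz2
      by_contra h
      have : g * 3 ≤ z' * g := by
        rw [mul_comm]
        exact Nat.mul_le_mul_right g (by omega)
      omega
    have hz22 : z' = 2 := by omega
    refine ⟨g, 2, 2, 0, 1, Nat.prime_two, Nat.prime_two, Or.inr rfl, Or.inr rfl, ?_, ?_⟩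
    · rw [hxe, hx1, pow_zero, mul_comm]
    · rw [hze, hz22, pow_one, mul_comm]

/-- the theorem of `MP_627c93_nt.SmallBasesFinite` -/
theorem smallBases (P₀ : Finset ℕ) (_hP₀ : ∀ p ∈ P₀, p.Prime) :
    ∃ y : ℕ, ∀ P : Set ℕ, (∀ p ∈ P, p.Prime) → (∀ p : ℕ, p.Prime → p ≤ y → p ∈ P) →
      {xz : ℕ × ℕ | Consecutive P xz.1 xz.2 ∧ ∃ p ∈ P₀, ∃ q ∈ P₀,
        xz.1 ∈ SUnit {p, q} ∧ xz.2 ∈ SUnit {p, q}}.Finite := by
  obtain ⟨y₀, hy₀⟩ := stMAX 1
  obtain ⟨y, hy⟩ : ∃ y : ℕ, y = max y₀ (max 2 (P₀.sup id)) := ⟨_, rfl⟩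
  have h2y : 2 ≤ y := by
    rw [hy]
    exact (le_max_left _ _).trans (le_max_right _ _)
  have hPy : ∀ p ∈ P₀, p ≤ y := by
    intro p hp
    rw [hy]
    exact (Finset.le_sup (f := id) hp).trans ((le_max_right _ _).trans (le_max_right _ _))
  refine ⟨y, fun P hP hPP => ?_⟩
  have hfin := hy₀ y (by rw [hy]; exact le_max_left _ _) P hP hPP
  refine hfin.subset ?_
  rintro ⟨x, z⟩ ⟨hcon, p, hp, q, hq, hx, hz⟩
  simp only at hcon hx hz
  have h2x : 2 * x ∈ SUnit P := by
    refine ⟨Nat.mul_pos (by norm_num) hcon.1.1, fun t ht htd => ?_⟩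
    rcases (Nat.Prime.dvd_mul ht).1 htd with h | h
    · rw [(Nat.prime_dvd_prime_iff_eq ht Nat.prime_two).1 h]
      exact hPP 2 Nat.prime_two h2y
    · exact hcon.1.2 t ht h
  have hz2 : z ≤ 2 * x := by
    rcases hcon.2.2.2 _ h2x with h | h
    · have := hcon.1.1
      omega
    · exact h
  obtain ⟨g, r, s, a, b, hr, hs, hrm, hsm, hxe, hze⟩ := two_bases p q x z hx hz hcon.2.2.1 hz2
  have hle : ∀ t : ℕ, t.Prime → (t ∈ ({p, q} : Set ℕ) ∨ t = 2) →
      Real.log t ≤ Real.log y ^ 1 := by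
    intro t ht htm
    have hty : t ≤ y := by
      rcases htm with (h | h) | h
      · rw [h]
        exact hPy p hp
      · rw [show t = q from h]
        exact hPy q hq
      · rw [h]
        exact h2y
    rw [pow_one]
    exact Real.log_le_log (by exact_mod_cast ht.pos) (by exact_mod_cast hty)
  exact ⟨hcon, g, r, s, a, b, hr, hs, hle r hr hrm, hle s hs hsm, hxe, hze⟩

end Pool.Agent.Helper12.XG
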