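import Pool.Agent.Helper12.XG.Defs
import Pool.Agent.Helper14.GS.St
import Pool.Agent.Helper14.GS.StD

/-!
# Project XG (MP_627c93_nt): statements of the modules, with complete proofs

PLAN. Let `y` be large. We show (StSIM) that the logarithms of the primes `≤ y` cannot be
simultaneously near integers after multiplication by a large real `t`: one of the distances is at
least `t^(-1/(log y)^r)`. Siegel's lemma (StSIG) gives a rational function `f` with integer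
coefficients, `h+1 = E²+1` nodes, poles of order `q`, vanishing to order `E q` at infinity, with
height only `(2 (h+1)^3)^q`. Its integrals `Phi i N` (`i ≤ q`) are integer linear forms in the numbers
`log((N+j+1)/(N+j))` and `1` (StARI), tiny for `N ≥ √y` (StTOP), and they cannot grow abruptly when
`N` decreases (StPRO: Schwarz lemma with the nodes `N + k²`). If all `t log p` are near integers, then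
(StCOR) `t Phi i N` stays tiny down to `N = E^7`; this contradicts StFIN, since the order of `f` at
infinity is at most `(E G + 1) q` with small `G` (StORD, a lower bound for the height by a Chebyshev
polynomial).

Every `StXXX : Prop` is one module: `theorem hXXX (h.. : St..) : StXXX` in
`Pool/Agent/<You>/XG/M_XXX.lean`; the hypotheses allowed are named after USES. Import
`Pool.Agent.Helper12.XG.St`.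
-/

set_option autoImplicit false

namespace Pool.Agent.Helper12.XG

open Finset Polynomial Pool.Agent.Helper14.GS

/-! ## Siegel's lemma -/

/-- **SIG** (Siegel's lemma). USES: nothing.
`Int.Matrix.exists_ne_zero_int_vec_norm_le` for the matrix `A : Matrix (Fin (E*q)) (Fin (E^2+1) × Fin q) ℤ`,
`A k (j,b) = binom(k,b) (-j)^(k-b)`. `|A| ≤ (E²+1)^(Eq)` since `binom(k,b) j^(k-b) ≤ (j+1)^k` (binomial
theorem) and `j + 1 ≤ E² + 1`, `k ≤ E q`. The exponent is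
`Eq / ((E²+1)q - Eq) = E/(E²+1-E) ≤ 2/E ≤ 1` (`E ≥ 2`). So
`‖t‖ ≤ ((E²+1) q (E²+1)^(Eq))^(2/E) ≤ ((E²+1) q) (E²+1)^(2q) ≤ (E²+1)^(2q+1) 2^q ≤ (2 (E²+1)^3)^q`
(`q ≤ 2^q`, `2q+1 ≤ 3q`; `x^(2/E) ≤ x` for `x ≥ 1`). Extend `t` by `0` to `β : ℕ → ℕ → ℤ`. -/
def StSIG : Prop :=
  ∀ E q : ℕ, 2 ≤ E → 1 ≤ q → ∃ β : ℕ → ℕ → ℤ,
    (∃ j ∈ range (E ^ 2 + 1), ∃ b ∈ range q, β j b ≠ 0) ∧
    (∀ j b, |β j b| ≤ (2 * ((E : ℤ) ^ 2 + 1) ^ 3) ^ q) ∧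
    ∀ k < E * q, mom (E ^ 2) q β k = 0

/-! ## The order at infinity (lower bound for the height) -/

/-- **CHD** (Chebyshev polynomials near the interval). USES: nothing.
Write `z = cos θ` (`Complex.cos_surjective`), `v = Im θ`. By `Polynomial.Chebyshev.T_complex_cos`,
`T_n(z) = cos(n θ)`, and `‖cos(nθ)‖ ≤ cosh(n v) ≤ exp(n |v|)` (for instance
`cos w = (exp(iw) + exp(-iw))/2`). Also `‖z - 1‖ + ‖z + 1‖ = 2 cosh v`: indeed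
`z - 1 = -2 sin(θ/2)^2`, `z + 1 = 2 cos(θ/2)^2` and `‖sin w‖² + ‖cos w‖² = cosh(2 Im w)`
(`‖sin(a+ib)‖² = sin²a + sinh²b`, `‖cos(a+ib)‖² = cos²a + sinh²b`). Since
`‖z - 1‖ ≤ (1 - c) + ρ`, `‖z + 1‖ ≤ (1 + c) + ρ` we get `1 + v²/2 ≤ cosh v ≤ 1 + ρ`, so
`|v| ≤ √(2ρ)`. -/
def StCHD : Prop :=
  ∀ (n : ℕ) (c ρ : ℝ) (z : ℂ), -1 ≤ c → c ≤ 1 → 0 ≤ ρ → ‖z - (c : ℂ)‖ ≤ ρ →
    ‖(Chebyshev.T ℂ (n : ℤ)).eval z‖ ≤ Real.exp (n * Real.sqrt (2 * ρ))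

/-- **CHG** (growth of Chebyshev polynomials). USES: nothing.
`1 + δ = cosh φ` with `φ ≥ 0` (`Real.cosh_surjOn`, intermediate values), and `φ ≥ √δ` because
`cosh(√δ) ≤ exp(δ/2) ≤ 1 + δ` for `0 ≤ δ ≤ 1` (`Real.cosh_le_exp_half_sq`; `cosh` is increasing on
`[0,∞)`). `T_n(cosh φ) = cosh(n φ)` (apply `Polynomial.Chebyshev.T_complex_cos` to `θ = i φ`,
`cos(iφ) = cosh φ`), and `cosh(nφ) ≥ exp(nφ)/2 ≥ exp(n √δ)/2`. The value is a positive real number;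
its norm is what is stated. -/
def StCHG : Prop :=
  ∀ (n : ℕ) (δ : ℝ), 0 < δ → δ ≤ 1 →
    Real.exp (n * Real.sqrt δ) / 2 ≤ ‖(Chebyshev.T ℂ (n : ℤ)).eval ((1 + δ : ℝ) : ℂ)‖

/-- **THE** (the polynomial `Θ`). USES: StCHD, StCHG.
`h = E²`, `D = E G`, `ℓ(z) = 1 + 2 (z+1)/h`, `Θ(z) = T_D(ℓ(z)) / T_D(ℓ(0))`, `ℓ(0) = 1 + 2/h`,
`δ = 2/h ≤ 1/2`. As a polynomial: `(Chebyshev.T ℂ D).comp (C (2/h) * X + C (1 + 2/h))` divided by a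
constant; `natDegree (T ℂ D) = D` (or `≤ D`). By CHG, `‖T_D(ℓ(0))‖ ≥ exp(D √2/E)/2 = exp(√2 G)/2`.
For `‖z + i‖ ≤ 1/16`, `1 ≤ i ≤ h`: `‖ℓ(z) - c‖ ≤ 1/(8h)`, `c = 1 - 2(i-1)/h ∈ [-1,1]`, so by CHD
`‖T_D(ℓ(z))‖ ≤ exp(D √(1/(4h))) = exp(G/2)`. The quotient is at most
`2 exp(-(√2 - 1/2) G) ≤ 2 exp(-(9/10) G)`. -/
def StTHE : Prop :=
  ∀ E G : ℕ, 2 ≤ E → ∃ Θ : ℂ[X], Θ.natDegree ≤ E * G ∧ Θ.eval 0 = 1 ∧
    ∀ i : ℕ, 1 ≤ i → i ≤ E ^ 2 → ∀ z : ℂ, ‖z + (i : ℂ)‖ ≤ 1 / 16 →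
      ‖Θ.eval z‖ ≤ 2 * Real.exp (-(9 / 10) * G)

/-- **HCA** (Cauchy estimate for Hasse derivatives). USES: nothing.
`(hasseDeriv b Γ).eval w` is the coefficient of `X^b` of `taylor w Γ`, i.e. `iteratedDeriv b Γ w / b!`
(`Polynomial.hasseDeriv`, `factorial_smul_hasseDeriv`); Cauchy's estimate
`Complex.norm_iteratedDeriv_le_of_forall_mem_sphere_norm_le`. -/
def StHCA : Prop :=
  ∀ (Γ : ℂ[X]) (b : ℕ) (w : ℂ) (r S : ℝ), 0 < r → (∀ z : ℂ, ‖z - w‖ ≤ r → ‖Γ.eval z‖ ≤ S) →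
    ‖(hasseDeriv b Γ).eval w‖ * r ^ b ≤ S

/-- **PAI** (pairing with polynomials). USES: nothing.
For `x = 0` and `P = X^k` the sum is `mom h q β k` (`hasseDeriv b (X^k) = binom(k,b) X^(k-b)`), so the
sum for a polynomial `P` is `∑_k P.coeff k * mom k`. For general `x` replace `P` by
`P.comp (X - C x)` (`taylor (-x) P`), whose degree and coefficient of `X^M` (`M ≥ natDegree`) are
those of `P`, and `(hasseDeriv b (P.comp (X - C x))).eval (-j) = (hasseDeriv b P).eval (-j - x)`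
(`taylor_coeff`: both are the coefficient of `X^b` of `taylor (-j-x) P`). -/
def StPAI : Prop :=
  ∀ (h q M : ℕ) (β : ℕ → ℕ → ℤ), (∀ k < M, mom h q β k = 0) → ∀ (P : ℂ[X]), P.natDegree ≤ M →
    ∀ x : ℂ, ∑ j ∈ range (h + 1), ∑ b ∈ range q,
      (β j b : ℂ) * (hasseDeriv b P).eval (-(j : ℂ) - x) = P.coeff M * (mom h q β M : ℂ)

/-- **ORD** (the order at infinity is at most `(E G + 1) q`). USES: StTHE, StHCA, StPAI.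
Suppose `mom k = 0` for all `k < (E G + 1) q =: M`. `h = E²`. Let `j₀` be the least `j ≤ h` with some
`β j b ≠ 0` (`b < q`) and `b₁` the largest `b < q` with `β j₀ b ≠ 0`. Let
`Γ(z) = (z + j₀)^(b₁) Θ(z + j₀)^q` (`Θ` from THE, composed with `X + C j₀`); its degree is at most
`(q-1) + E G q < M`, so `∑_j ∑_b β j b (hasseDeriv b Γ)(-j) = 0` (PAI, `x = 0`, coefficient of `X^M` zero).
The terms `j < j₀` vanish; for `j = j₀` the term `b` vanishes if `b > b₁` (`β = 0`) or `b < b₁`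
(`(z+j₀)^(b₁)` divides `Γ`), and for `b = b₁` it is `β j₀ b₁ * Θ(0)^q = β j₀ b₁` (coefficient of
`X^(b₁)` of `X^(b₁) Θ(X)^q`). For `j > j₀`, `i = j - j₀ ∈ [1,h]`: on `‖z + j‖ ≤ 1/16`,
`‖z + j₀‖ ≤ i + 1 ≤ h + 1` and `‖Θ(z + j₀)‖ ≤ σ = 2 exp(-(9/10)G) ≤ 2/2^G ≤ 1/(128 (h+1)^5)`
(`exp(9/10) ≥ 2`), so by HCA (`r = 1/16`) the term is at most
`(2(h+1)^3)^q 16^q (h+1)^q σ^q ≤ (1/(4(h+1)))^q`. There are at most `h q` such terms, and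
`h q / (4(h+1))^q ≤ q/4^q < 1`; so `1 ≤ |β j₀ b₁| < 1`, a contradiction. -/
def StORD : Prop :=
  ∀ E G q : ℕ, 2 ≤ E → 1 ≤ q → 256 * (E ^ 2 + 1) ^ 5 ≤ 2 ^ G → ∀ β : ℕ → ℕ → ℤ,
    (∃ j ∈ range (E ^ 2 + 1), ∃ b ∈ range q, β j b ≠ 0) →
    (∀ j b, |β j b| ≤ (2 * ((E : ℤ) ^ 2 + 1) ^ 3) ^ q) →
    ∃ k < (E * G + 1) * q, mom (E ^ 2) q β k ≠ 0

/-! ## Size for large `N` -/

/-- **TOP** (upper bound from the vanishing order). USES: nothing.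
For `u > j`, `1/(u+j)^(b+1+i) = ∑_{n≥0} binom(b+i+n,n) (-j)^n u^(-(b+1+i+n))`
(`hasSum_choose_mul_geometric_of_norm_lt_one` with `r = -j/u`, `|r| < 1`); with `k = b + n`,
`binom(b+i,i) binom(b+i+n,n) = binom(k+i,i) binom(k,b)`. Hence
`fI i u = (-1)^i ∑_k binom(k+i,i) mom(k) u^(-(k+1+i))`. Here `mom k = 0` for `k < M`,
`|mom k| ≤ (h+1) Bd (h+1)^k` (`∑_b binom(k,b) j^(k-b) ≤ (j+1)^k`), `binom(k+i,i) ≤ 2^(k+i)`, so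
`|fI i u| ≤ (h+1) Bd 2^i u^(-1-i) ∑_{k≥M} (2(h+1)/u)^k ≤ (h+1) Bd 2^i * 2 (2(h+1)/u)^M`, as
`2(h+1)/u ≤ 1/2` and `u ≥ 1`. -/
def StTOP : Prop :=
  ∀ (h q M i : ℕ) (β : ℕ → ℕ → ℤ) (Bd u : ℝ), (∀ j b, |(β j b : ℝ)| ≤ Bd) →
    (∀ k < M, mom h q β k = 0) → 4 * ((h : ℝ) + 1) ≤ u →
    |fI h q β i u| ≤ 2 * ((h : ℝ) + 1) * Bd * 2 ^ i * (2 * ((h : ℝ) + 1) / u) ^ M

/-- **TOI** (the same for the integrals). USES: StTOP.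
`|Phi i N| ≤ ∫_0^1 |fI i (N+x)| dx` (`0 ≤ (x(1-x))^(2q) ≤ 1`), and for `u = N + x ≥ N` the bound of TOP is
largest for `u = N`. `fI` is continuous on `[N, N+1]`, `N ≥ 1`. -/
def StTOI : Prop :=
  ∀ (h q M i N : ℕ) (β : ℕ → ℕ → ℤ) (Bd : ℝ), (∀ j b, |(β j b : ℝ)| ≤ Bd) →
    (∀ k < M, mom h q β k = 0) → 4 * (h + 1) ≤ N →
    |Phi h q β i N| ≤ 2 * ((h : ℝ) + 1) * Bd * 2 ^ i * (2 * ((h : ℝ) + 1) / N) ^ M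

/-! ## Arithmetic of the integrals -/

/-- **ARI** (integer linear forms). USES: StA2 (proved: `Pool.Agent.Helper42.GS.A2`; take it as a
hypothesis `(hA2 : StA2)`).
`Phi i N = ∑_j ∑_b β j b (-1)^i binom(b+i,i) ∫_0^1 x^(2q) (1-x)^(2q) (x + (N+j))^(-(b+1+i)) dx` (all integrands
are continuous on `[0,1]` as `N ≥ 1`). Apply A2 with `D = 2q`, `m = N + j ≥ 1`, exponent `b+1+i ≤ 2q + 1`:
`d ∫ = d A log((N+j+1)/(N+j)) + r`, `|A| ≤ (N+j+2)^(4q)`. Put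
`a j = ∑_b β j b (-1)^i binom(b+i,i) A_(j,b)`, `|a j| ≤ q Bd 2^(2q) (N+h+2)^(4q)`
(`binom(b+i,i) ≤ 2^(b+i) ≤ 2^(2q)`), and `R = ∑_j ∑_b β j b (-1)^i binom(b+i,i) r_(j,b)`. -/
def StARI : Prop :=
  ∀ (h q i N d : ℕ) (β : ℕ → ℕ → ℤ) (Bd : ℝ), (∀ j b, |(β j b : ℝ)| ≤ Bd) → 1 ≤ N → i ≤ q →
    (∀ r : ℕ, 1 ≤ r → r ≤ 4 * q → r ∣ d) →
    ∃ (a : ℕ → ℤ) (R : ℤ),
      (∀ j ∈ range (h + 1), |(a j : ℝ)| ≤ q * Bd * 2 ^ (2 * q) * ((N : ℝ) + h + 2) ^ (4 * q)) ∧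
      (d : ℝ) * Phi h q β i N =
        (∑ j ∈ range (h + 1), (d : ℝ) * a j * Real.log (((N : ℝ) + j + 1) / ((N : ℝ) + j))) + R

/-- **NUE** (extension of the approximations to all `n ≤ y`). USES: nothing.
`ν' n = ∑_p v_p(n) ν p` (sum over `n.factorization`); `log n = ∑ v_p(n) log p`, the number of prime
factors of `n` counted with multiplicity is at most `n ≤ y` (`∑ v_p(n) ≤ log n / log 2 ≤ n`), and all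
prime factors are `≤ y`. -/
def StNUE : Prop :=
  ∀ (y : ℕ) (t ε : ℝ) (ν : ℕ → ℤ), 0 ≤ ε →
    (∀ p : ℕ, p.Prime → p ≤ y → |t * Real.log p - ν p| ≤ ε) →
    ∃ ν' : ℕ → ℤ, ∀ n : ℕ, 1 ≤ n → n ≤ y → |t * Real.log n - ν' n| ≤ y * ε

/-- **NIN** (`t Phi i N` is nearly `integer + ϑ * integer`). USES: StARI (with its hypothesis
`StA2`; take `(hA : StARI)`).
`ϑ = t/d`; `a, R` from ARI; `J = ∑_j a j (ν' (N+j+1) - ν' (N+j))`. Then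
`t Phi = (1/d)(∑ d a_j t λ_j) + (t/d) R = ∑_j a_j (t log(N+j+1) - t log(N+j)) + ϑ R` and so
`|t Phi - J - ϑ R| ≤ ∑_j |a_j| 2 ε`. Bound for `R`: `R = d Phi - d ∑ a_j λ_j`, `0 ≤ λ_j ≤ log 2 ≤ 1`,
`|Phi i N| ≤ (h+1) q Bd 2^(2q)` (each `|(N+x+j)⁻¹| ≤ 1`), and
`(h+1) q Bd 2^(2q) ≤ (h+1) Wa` with `Wa = q Bd 2^(2q) (N+h+2)^(4q)`. So `|R| ≤ 2 d (h+1) Wa`. -/
def StNIN : Prop :=
  ∀ (h q i N d y : ℕ) (β : ℕ → ℕ → ℤ) (Bd t ε : ℝ) (ν' : ℕ → ℤ),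
    (∀ j b, |(β j b : ℝ)| ≤ Bd) → 1 ≤ N → i ≤ q → 1 ≤ d →
    (∀ r : ℕ, 1 ≤ r → r ≤ 4 * q → r ∣ d) → N + h + 1 ≤ y →
    (∀ n : ℕ, 1 ≤ n → n ≤ y → |t * Real.log n - ν' n| ≤ ε) →
    ∃ J R : ℤ,
      |t * Phi h q β i N - J - t / d * R| ≤
        2 * ((h : ℝ) + 1) * (q * Bd * 2 ^ (2 * q) * ((N : ℝ) + h + 2) ^ (4 * q)) * ε ∧
      |(R : ℝ)| ≤ 2 * d * ((h : ℝ) + 1) * (q * Bd * 2 ^ (2 * q) * ((N : ℝ) + h + 2) ^ (4 * q))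

/-! ## pole expansion and the Schwarz lemma -/

/-- **PFE** (pole expansion). USES: nothing. Let `A₁ = A %ₘ DP n a m`; `DP` is monic, `RF` equals
`(A /ₘ DP).eval + A₁.eval / DP.eval` (`Polynomial.modByMonic_add_div`). Since `deg A₁ < ∑ m_k` and the
factors `(X - a_k)^(m_k)` are pairwise coprime, `A₁/DP = ∑_k r_k / (X - a_k)^(m_k)` with
`deg r_k < m_k` (Mathlib: `div_eq_quo_add_sum_rem_div`; or: the polynomials `DP/(X - a_k)^(i+1)`,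
`i < m_k`, are linearly independent and their number is `deg DP`, so they span the polynomials of
degree `< deg DP`); expand `r_k` in powers of `X - a_k`. -/
def StPFE : Prop :=
  ∀ (n : ℕ) (a : ℕ → ℝ) (m : ℕ → ℕ) (A : ℂ[X]),
    (∀ k ∈ range n, ∀ k' ∈ range n, k ≠ k' → a k ≠ a k') →
    ∃ γ : ℕ → ℕ → ℂ, ∀ z : ℂ, (∀ k ∈ range n, z ≠ (a k : ℂ)) →
      RF n a m A z = (A /ₘ DP n a m).eval z +
        ∑ k ∈ range n, ∑ i ∈ range (m k), γ k i / (z - (a k : ℂ)) ^ (i + 1)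

/-- **PFB** (the coefficients of the pole expansion). USES: nothing.
Fix `k`, write `c = a_k`, `S_k(z) = A(z) / ∏_{k'≠k} (z - a_k')^(m_k')`, analytic for `‖z - c‖ < 1` since the
other nodes have distance `≥ 1` from `c`. Multiplying the pole expansion by `(z - c)^(m_k)`:
`S_k(z) = ∑_{i<m_k} γ_{k,i} (z-c)^(m_k-1-i) + (z-c)^(m_k) H(z)` for `0 < ‖z - c‖ < 1`, with `H` analytic on
`‖z - c‖ < 1` (polynomial plus the terms `k' ≠ k`); by continuity also for `z = c`. So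
`γ_{k,i}` is the Taylor coefficient of order `m_k - 1 - i` of `S_k` at `c`. Value at `z = c`: the first
claim. Cauchy's estimate on `‖z - c‖ = 1/2`
(`Complex.norm_iteratedDeriv_le_of_forall_mem_sphere_norm_le`): `|γ_{k,i}| ≤ 2^(m_k-1-i) S ≤ 2^(m_k) S`. -/
def StPFB : Prop :=
  ∀ (n : ℕ) (a : ℕ → ℝ) (m : ℕ → ℕ) (A P : ℂ[X]) (γ : ℕ → ℕ → ℂ),
    (∀ k ∈ range n, ∀ k' ∈ range n, k ≠ k' → 1 ≤ |a k - a k'|) →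
    (∀ z : ℂ, (∀ k ∈ range n, z ≠ (a k : ℂ)) → RF n a m A z = P.eval z +
        ∑ k ∈ range n, ∑ i ∈ range (m k), γ k i / (z - (a k : ℂ)) ^ (i + 1)) →
    ∀ k ∈ range n,
      (1 ≤ m k → γ k (m k - 1) =
        A.eval (a k : ℂ) / ∏ k' ∈ (range n).erase k, ((a k : ℂ) - (a k' : ℂ)) ^ (m k')) ∧
      ∀ S : ℝ, 0 ≤ S → (∀ z : ℂ, ‖z - (a k : ℂ)‖ = 1 / 2 →
          ‖A.eval z‖ ≤ S * ∏ k' ∈ (range n).erase k, ‖z - (a k' : ℂ)‖ ^ (m k')) →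
        ∀ i < m k, ‖γ k i‖ ≤ 2 ^ (m k) * S

/-- **RES** (sum of residues). USES: nothing.
Let `T = RF n a m A`, analytic outside the nodes, and `w = -j - x`. By hypothesis the disc
`‖z - w‖ ≤ r` contains no node (there `‖z - a_k‖ > 0`). Differentiate the pole expansion `b`
times at `w` and divide by `b!`:
`T^(b)(w)/b! = (hasseDeriv b P)(w) + ∑_{k,i} γ_{k,i} (-1)^b binom(b+i,b) (w - a_k)^(-(b+1+i))`, and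
`(-1)^b (w - a_k)^(-(b+1+i)) = -(-1)^i (a_k + x + j)^(-(b+1+i))`. Multiply by `β j b` and sum:
`∑ β j b T^(b)(w)/b! = ∑ β j b (hasseDeriv b P)(-j-x) - ∑_{k,i} γ_{k,i} fI i (a_k + x)`. By Cauchy's
estimate `|T^(b)(w)/b!| ≤ S r^(-b) ≤ S`. -/
def StRES : Prop :=
  ∀ (h q n : ℕ) (β : ℕ → ℕ → ℤ) (Bd : ℝ) (a : ℕ → ℝ) (m : ℕ → ℕ) (A P : ℂ[X]) (γ : ℕ → ℕ → ℂ)
    (x r S : ℝ), (∀ j b, |(β j b : ℝ)| ≤ Bd) → 0 ≤ x → 1 ≤ r → 0 ≤ S → (∀ k ∈ range n, r < a k) →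
    (∀ z : ℂ, (∀ k ∈ range n, z ≠ (a k : ℂ)) → RF n a m A z = P.eval z +
        ∑ k ∈ range n, ∑ i ∈ range (m k), γ k i / (z - (a k : ℂ)) ^ (i + 1)) →
    (∀ j ∈ range (h + 1), ∀ z : ℂ, ‖z + (j : ℂ) + (x : ℂ)‖ ≤ r → ‖RF n a m A z‖ ≤ S) →
    ‖(∑ j ∈ range (h + 1), ∑ b ∈ range q, (β j b : ℂ) * (hasseDeriv b P).eval (-(j : ℂ) - (x : ℂ))) -
        ∑ k ∈ range n, ∑ i ∈ range (m k), γ k i * (fI h q β i (a k + x) : ℂ)‖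
      ≤ ((h : ℝ) + 1) * q * Bd * S

/-- **PRE** (products over the squares). USES: nothing.
First claim: `|k² - k'²| - 1/2 ≥ (|k-k'| - 1/4)(k+k')` (as `k + k' ≥ 2`). With
`∏_{d=1}^n (d - 1/4) ≥ n!/(n+1)` (telescoping: `1 - 1/(4d) ≥ d/(d+1)`) the product over `k' ≠ k` is at
least `((k-1)!/k) ((Q-k)!/(Q-k+1)) ∏_{k'≠k}(k+k')` and `∏_{k'≠k}(k+k') = (Q+k)!/(k! 2k)`. So it is at
least `(Q-k)! (Q+k)! / (2 k³ (Q-k+1)) ≥ (Q!)²/(4 Q⁴)`, since `(Q-k)!(Q+k)! ≥ (Q!)²` and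
`2 k³ (Q - k + 1) ≤ 2 Q⁴`. Second claim: `1 - 1/(2k²) ≥ k/(k+1)`. -/
def StPRE : Prop :=
  (∀ Q k : ℕ, 1 ≤ k → k ≤ Q → ((Q.factorial : ℝ)) ^ 2 ≤
    4 * (Q : ℝ) ^ 4 * ∏ k' ∈ (Icc 1 Q).erase k, (|(k : ℝ) ^ 2 - (k' : ℝ) ^ 2| - 1 / 2)) ∧
  ∀ Q : ℕ, ((Q.factorial : ℝ)) ^ 2 ≤ ((Q : ℝ) + 1) * ∏ k' ∈ Icc 1 Q, ((k' : ℝ) ^ 2 - 1 / 2)

/-- **GAM** (the coefficients for the nodes `N + k²`). USES: StPFE, StPFB, StPRE.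
Nodes `a k = N + k²`, `k ∈ range (Q+1)`, multiplicities `m 0 = i₀ + 1`, `m k = q + 1` for `k ≥ 1`, `A = 1`
(`1 /ₘ DP = 0` as `DP` is monic of positive degree). Distances: `|k² - k'²| ≥ 1`. By PFB,
`γ 0 i₀ = 1/∏_{k≥1} (-k²)^(q+1)`, of norm `(Q!)^(-2(q+1))`. Bounds: on `‖z - a_k‖ = 1/2`,
`‖z - a_k'‖ ≥ |k² - k'²| - 1/2`. For `k ≥ 1` the factor `k' = 0` is at least `(1/2)^(i₀+1) ≥ (1/2)^(q+1)`
(`k² - 1/2 ≥ 1/2`), the others at least `((Q!)²/(4Q⁴))^(q+1)` (PRE), so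
`‖γ k i‖ ≤ 2^(q+1) 2^(q+1) (4 Q⁴)^(q+1) (Q!)^(-2(q+1)) = (16 Q⁴)^(q+1) ‖γ 0 i₀‖`. For `k = 0` it is at
most `2^(i₀+1) (Q+1)^(q+1) (Q!)^(-2(q+1)) ≤ (16Q⁴)^(q+1) ‖γ 0 i₀‖` (`2(Q+1) ≤ 16 Q⁴`). -/
def StGAM : Prop :=
  ∀ (Q q i₀ N : ℕ), 1 ≤ Q → i₀ ≤ q → ∃ γ : ℕ → ℕ → ℂ,
    (∀ z : ℂ, (∀ k ∈ range (Q + 1), z ≠ (((N : ℝ) + (k : ℝ) ^ 2 : ℝ) : ℂ)) →
      RF (Q + 1) (fun k => (N : ℝ) + (k : ℝ) ^ 2) (fun k => if k = 0 then i₀ + 1 else q + 1) 1 z =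
        (0 : ℂ[X]).eval z +
        ∑ k ∈ range (Q + 1), ∑ i ∈ range (if k = 0 then i₀ + 1 else q + 1),
          γ k i / (z - (((N : ℝ) + (k : ℝ) ^ 2 : ℝ) : ℂ)) ^ (i + 1)) ∧
    ‖γ 0 i₀‖ * ((Q.factorial : ℝ)) ^ (2 * (q + 1)) = 1 ∧
    ∀ k ∈ range (Q + 1), ∀ i ∈ range (if k = 0 then i₀ + 1 else q + 1),
      ‖γ k i‖ ≤ (16 * (Q : ℝ) ^ 4) ^ (q + 1) * ‖γ 0 i₀‖

/-- **PRO** (Schwarz lemma: `Phi i N` does not grow abruptly). USES: StGAM, StRES.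
`γ` from GAM. RES with `P = 0`, `r = N/2 ≥ 1`, nodes `a_k = N + k² > N/2`: on `‖z + j + x‖ ≤ N/2`,
`‖z - a_k‖ ≥ a_k + j + x - N/2 ≥ N/2`, so `‖RF z‖ ≤ (2/N)^(Q(q+1)+i₀+1) ≤ (2/N)^(Q(q+1)) =: S`. Hence for
all `x ∈ [0,1]`: `‖∑_{k,i} γ_{k,i} fI i (N + k² + x)‖ ≤ (h+1) q Bd S`. Multiply by
`x^(2q)(1-x)^(2q) ∈ [0,1]` and integrate over `[0,1]` (all functions are continuous):
`‖∑_{k,i} γ_{k,i} Phi i (N+k²)‖ ≤ (h+1) q Bd S`. Solve for the term `(k,i) = (0,i₀)` and divide by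
`‖γ 0 i₀‖ = (Q!)^(-2(q+1))`; `(Q!)^(2(q+1)) S ≤ (Q²)^(Q(q+1)) (2/N)^(Q(q+1))`; there are at most
`(Q+1)(q+1)` other terms, each at most `(16Q⁴)^(q+1) ‖γ 0 i₀‖ V`. -/
def StPRO : Prop :=
  ∀ (h q Q N i₀ : ℕ) (β : ℕ → ℕ → ℤ) (Bd V : ℝ), (∀ j b, |(β j b : ℝ)| ≤ Bd) → 1 ≤ Q → 2 ≤ N →
    i₀ ≤ q → 0 ≤ V → (∀ i < i₀, |Phi h q β i N| ≤ V) →
    (∀ k : ℕ, 1 ≤ k → k ≤ Q → ∀ i ≤ q, |Phi h q β i (N + k ^ 2)| ≤ V) →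
    |Phi h q β i₀ N| ≤ ((Q : ℝ) + 1) * (q + 1) * (16 * (Q : ℝ) ^ 4) ^ (q + 1) * V +
      ((h : ℝ) + 1) * q * Bd * (2 * (Q : ℝ) ^ 2 / N) ^ (Q * (q + 1))

/-- **KIN** (the mass of the kernel). USES: nothing. On `[1/4, 3/4]`, `x(1-x) ≥ 3/16`, so the integral is
at least `(1/2) (9/256)^q ≥ (1/64)^q` (`q ≥ 1`: `(9/4)^q ≥ 2`). -/
def StKIN : Prop :=
  ∀ q : ℕ, 1 ≤ q → (1 / 64 : ℝ) ^ q ≤ ∫ x in (0 : ℝ)..1, x ^ (2 * q) * (1 - x) ^ (2 * q)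

/-- **FIN** (the forms cannot all be small near `N₀`). USES: StPFE, StPFB, StRES, StPAI, StKIN.
Nodes `a k = N₀ + k + 1`, `k ∈ range Q'`, multiplicities `q + 1`, `D = Q'(q+1)`, `A = X^(M+D)`. `DP` is monic of
degree `D`, so `P = A /ₘ DP` is monic of degree `M` and, by PAI, for all `x`
`∑ β j b (hasseDeriv b P)(-j-x) = mom M`. RES with `r = 1` (`a_k > 1`): on `‖z + j + x‖ ≤ 1`, `0 ≤ x ≤ 1`:
`‖z‖ ≤ h + 2`, `‖z - a_k‖ ≥ a_k + j + x - 1 ≥ N₀`, so `S = (h+2)^(M+D)/N₀^D`. Multiply by the kernel and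
integrate: `‖mom M * ∫K - ∑ γ_{k,i} Phi i (a_k)‖ ≤ (h+1) q Bd S`. PFB: on `‖z - a_k‖ = 1/2`,
`‖A(z)‖ ≤ (N₀+Q'+1)^(M+D)` and `∏_{k'≠k} ‖z - a_k'‖ ≥ 1/4` (at most two nodes at distance `1`, each giving
`≥ 1/2`; the others give `≥ 1`), so `‖γ k i‖ ≤ 2^(q+1) 4^(q+1) (N₀+Q'+1)^(M+D)`. Finally `|mom M| ≥ 1` and KIN. -/
def StFIN : Prop :=
  ∀ (h q Q' N₀ M : ℕ) (β : ℕ → ℕ → ℤ) (Bd V : ℝ), (∀ j b, |(β j b : ℝ)| ≤ Bd) → 1 ≤ q → 1 ≤ Q' →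
    1 ≤ N₀ → 0 ≤ V → (∀ k < M, mom h q β k = 0) → mom h q β M ≠ 0 →
    (∀ k : ℕ, 1 ≤ k → k ≤ Q' → ∀ i ≤ q, |Phi h q β i (N₀ + k)| ≤ V) →
    (1 / 64 : ℝ) ^ q ≤ (Q' : ℝ) * (q + 1) * 8 ^ (q + 1) *
        ((N₀ : ℝ) + Q' + 1) ^ (M + Q' * (q + 1)) * V +
      ((h : ℝ) + 1) * q * Bd * (((h : ℝ) + 2) ^ (M + Q' * (q + 1)) / (N₀ : ℝ) ^ (Q' * (q + 1)))

/-! ## The arithmetic core -/

/-- **COR** (core; elementary). USES: nothing.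
Strong induction on `n` for the statement: `|z n| ≤ 4 W Am ε`, and either all `m ≤ n` have `R m = 0` and
`|z m| ≤ ε`, or there is `s ≤ n` with `R s ≠ 0` and `|z s| ≤ 2 Am ε`. (Put `δ = Am ε ≥ ε`; the
hypothesis gives `δ < 1/16` and `W² Am² ε < 1/16`.) Let `n` be given and suppose it for all smaller
indices.
(A) No `s < n` with `R s ≠ 0`: all `|z m| ≤ ε` for `m < n`, so `|z n| ≤ Am ε + ε ≤ 2 Am ε` (also if `n < n₀`).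
If `R n ≠ 0` take `s = n`. If `R n = 0` then `|J n| ≤ |z n| + ε ≤ 3 Am ε < 1`, so `J n = 0` and
`|z n| ≤ ε`.
(B) There is `s < n` with `R s ≠ 0`, `|z s| ≤ 2 Am ε`. Now `|z n| ≤ Am (4 W Am ε) + ε ≤ 5 W Am² ε`. The integer
`J n R s - J s R n = z n R s - z s R n - e n R s + e s R n` (`e = z - J - ϑ R`, `|e| ≤ ε`; the terms with
`ϑ` cancel) has absolute value at most `W (5 W Am² ε + 2 Am ε + 2 ε) ≤ 9 W² Am² ε < 1`, so it is `0`, and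
`z n R s = z s R n + e n R s - e s R n`, hence (divide by `|R s| ≥ 1`)
`|z n| ≤ |R n| (|z s| + ε) + ε ≤ W (2 Am ε + ε) + ε ≤ 4 W Am ε`. -/
def StCOR : Prop :=
  ∀ (n₀ n₁ : ℕ) (z : ℕ → ℝ) (J R : ℕ → ℤ) (ϑ ε W Am : ℝ), 0 ≤ ε → 1 ≤ W → 1 ≤ Am →
    16 * W ^ 2 * Am ^ 2 * ε < 1 →
    (∀ n < n₁, |z n - J n - ϑ * R n| ≤ ε ∧ |(R n : ℝ)| ≤ W) →
    (∀ n < n₁, n < n₀ → |z n| ≤ ε) →
    (∀ n < n₁, n₀ ≤ n → ∀ V : ℝ, 0 ≤ V → (∀ m < n, |z m| ≤ V) → |z n| ≤ Am * V + ε) →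
    ∀ n < n₁, |z n| ≤ 4 * W * Am * ε

/-- **DWN** (the forms stay small down to `N₁`). USES: StCOR, StPRO.
Apply COR to the pairs `(N,i)`, `N₁ ≤ N ≤ N₃`, `i ≤ q`, ordered by decreasing `N` and, for equal `N`, by
increasing `i`: the index of `(N,i)` is `n = (N₃ - N)(q+1) + i`, i.e. `N = N₃ - n/(q+1)`, `i = n % (q+1)`,
`n₁ = (N₃ - N₁ + 1)(q+1)`, `n₀ = (N₃ - N₂ + 1)(q+1)`, `z n = t Phi i N`. The values used by PRO for `(N,i₀)`,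
`N < N₂`, namely `(N,i)` with `i < i₀` and `(N + k²,i)` with `1 ≤ k ≤ Q`, `N + k² ≤ N₂ + Q² ≤ N₃`, have
smaller indices. PRO (multiplied by `t`) gives `|z n| ≤ Am V + t (h+1) q Bd (2Q²/N)^(Q(q+1))`, and
`N ≥ N₁` gives that the last term is `≤ ε` by hypothesis. -/
def StDWN : Prop :=
  ∀ (h q Q N₁ N₂ N₃ : ℕ) (β : ℕ → ℕ → ℤ) (Bd t ϑ ε W Am : ℝ), (∀ j b, |(β j b : ℝ)| ≤ Bd) → 0 ≤ Bd →
    0 ≤ t → 1 ≤ Q → 2 ≤ N₁ → N₁ ≤ N₂ → N₂ + Q ^ 2 ≤ N₃ → 0 ≤ ε → 1 ≤ W →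
    Am = ((Q : ℝ) + 1) * (q + 1) * (16 * (Q : ℝ) ^ 4) ^ (q + 1) → 16 * W ^ 2 * Am ^ 2 * ε < 1 →
    t * (((h : ℝ) + 1) * q * Bd * (2 * (Q : ℝ) ^ 2 / N₁) ^ (Q * (q + 1))) ≤ ε →
    (∀ N i : ℕ, N₁ ≤ N → N ≤ N₃ → i ≤ q → ∃ J R : ℤ,
      |t * Phi h q β i N - J - ϑ * R| ≤ ε ∧ |(R : ℝ)| ≤ W) →
    (∀ N i : ℕ, N₂ ≤ N → N ≤ N₃ → i ≤ q → |t * Phi h q β i N| ≤ ε) →
    ∀ N i : ℕ, N₁ ≤ N → N ≤ N₃ → i ≤ q → |t * Phi h q β i N| ≤ 1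

end Pool.Agent.Helper12.XG
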