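import Pool.Agent.Helper12.XG.St
import Pool.Agent.Helper10.EP.Defs

/-!
# Project XG (MP_627c93_nt): second file of statements (choice of the parameters, assembly)

Same rules as in `Pool.Agent.Helper12.XG.St`. Import `Pool.Agent.Helper12.XG.St2`.
-/

set_option autoImplicit false

namespace Pool.Agent.Helper12.XG

open Finset Polynomial Pool.Agent.Helper14.GS

/-- The relations between the parameters; `Λ` is the integer part of `log y`. -/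
structure Par (r C y Λ E G : ℕ) : Prop where
  hΛ : 1200 ≤ Λ
  hE : E = Λ ^ (r + 1)
  hC : 1 ≤ C
  lo : Real.exp Λ ≤ y
  up : (y : ℝ) ≤ Real.exp (Λ + 1)
  hG : 256 * (E ^ 2 + 1) ^ 5 ≤ 2 ^ G
  hG20 : 20 ≤ G
  big : ((64 : ℝ) * C * Λ * ((E : ℝ) ^ 2 + 1)) ^ 100 ≤ Real.exp Λ
  fin : 2000 * (G : ℝ) * (Real.log E + 1) ≤ Λ

/-- The bound for the coefficients. -/
noncomputable def BdR (E q : ℕ) : ℝ := (2 * ((E : ℝ) ^ 2 + 1) ^ 3) ^ q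

noncomputable def WaR (E q y : ℕ) : ℝ := (q : ℝ) * BdR E q * 2 ^ (2 * q) * (y : ℝ) ^ (4 * q)

noncomputable def EpR (E q y : ℕ) (t κ : ℝ) : ℝ :=
  2 * ((E : ℝ) ^ 2 + 1) * WaR E q y * ((y : ℝ) * t ^ (-κ))

noncomputable def WR (E q y d : ℕ) : ℝ := 2 * (d : ℝ) * ((E : ℝ) ^ 2 + 1) * WaR E q y

noncomputable def AmR (Q q : ℕ) : ℝ :=
  ((Q : ℝ) + 1) * (q + 1) * (16 * (Q : ℝ) ^ 4) ^ (q + 1)

/-- **NU1** (numerical). USES: nothing.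
`Z = 64 C Λ (E²+1)`, so `Z ≥ 64`, `Z^100 ≤ exp Λ`. For `q ≥ 2`: `BdR ≤ Z^(3q)`; `q ≤ 2^q ≤ Z^q`;
`2^(2q) ≤ Z^q`; `y^(4q) ≤ exp(4q(Λ+1))`; so `WaR ≤ Z^(5q) exp(4q(Λ+1))`. `d ≤ C^(4q) ≤ Z^(4q)`,
`2(E²+1) ≤ Z ≤ Z^q`, so `WR ≤ Z^(10q) exp(4q(Λ+1))`. `Q = EΛ`: `Q+1 ≤ Z^q`, `q+1 ≤ 2^q ≤ Z^q`,
`16 Q⁴ ≤ Z⁴`, `4(q+1) ≤ 8q`; so `AmR ≤ Z^(10q)`. `EpR ≤ Z^(6q) exp(4q(Λ+1)) exp(Λ+1) t^(-κ)`. With
`16 ≤ Z^q` the product is at most `Z^(47q) exp(13 q (Λ+1)) t^(-κ) ≤ exp(14 Λ q) t^(-κ)` (`Z^(47q) ≤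
exp(Λ q/2)`, `13 q ≤ Λ q/2`). And `t^κ = exp(κ log t) ≥ exp(κ E Λ (q-1)/8) = exp(Λ² (q-1)/8) ≥
exp(Λ² q/16) ≥ exp(75 Λ q)` (`κ E = Λ`). `WR ≥ 1` since all factors are `≥ 1`. -/
def StNU1 : Prop :=
  ∀ (r C y Λ E G q d : ℕ) (t : ℝ), Par r C y Λ E G → 2 ≤ q → 1 ≤ d → d ≤ C ^ (4 * q) → 1 ≤ t →
    (E : ℝ) * Λ * ((q : ℝ) - 1) / 8 ≤ Real.log t →
    1 ≤ WR E q y d ∧
      16 * WR E q y d ^ 2 * AmR (E * Λ) q ^ 2 * EpR E q y t (1 / (Λ : ℝ) ^ r) < 1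

/-- **NU2** (numerical). USES: nothing.
As `WaR ≥ q BdR` and `y ≥ 1`, `EpR ≥ (E²+1) q BdR t^(-κ)`; so it is enough that
`t^(1+κ) X^(EΛ(q+1)) ≤ 1`, `X = 2(EΛ)²/E^7 = 2Λ²/E^5 ≤ 2/Λ³ ≤ exp(-1)` (`E ≥ Λ`). Indeed
`X^(EΛ(q+1)) ≤ exp(-EΛ(q+1))` and `t^(1+κ) ≤ t² ≤ exp(EΛq/4)` (`0 < κ ≤ 1`, `t ≥ 1`). -/
def StNU2 : Prop :=
  ∀ (r C y Λ E G q : ℕ) (t : ℝ), Par r C y Λ E G → 2 ≤ q → 1 ≤ t →
    Real.log t ≤ (E : ℝ) * Λ * q / 8 →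
    t * (((E : ℝ) ^ 2 + 1) * q * BdR E q *
        (2 * ((E : ℝ) * Λ) ^ 2 / (E : ℝ) ^ 7) ^ (E * Λ * (q + 1)))
      ≤ EpR E q y t (1 / (Λ : ℝ) ^ r)

/-- **NU3** (numerical). USES: nothing.
`EpR ≥ 2 (E²+1) BdR 2^(2q) t^(-κ)` (`q, y ≥ 1`) and `2^i ≤ 2^(2q)`, so it is enough that
`t^(1+κ) (2(E²+1)/N)^(E q) ≤ 1`. `2(E²+1) ≤ exp(Λ/100)` (`big`), so
`2(E²+1)/N ≤ exp(Λ/100 - Λ/2) ≤ exp(-(49/100) Λ)` and the power is at most `exp(-(49/100) E Λ q)`,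
while `t^(1+κ) ≤ t² ≤ exp(E Λ q/4)`. -/
def StNU3 : Prop :=
  ∀ (r C y Λ E G q N i : ℕ) (t : ℝ), Par r C y Λ E G → 2 ≤ q → 1 ≤ t →
    Real.log t ≤ (E : ℝ) * Λ * q / 8 → Real.exp ((Λ : ℝ) / 2) ≤ N → i ≤ q →
    t * (2 * ((E : ℝ) ^ 2 + 1) * BdR E q * 2 ^ i *
        (2 * ((E : ℝ) ^ 2 + 1) / N) ^ (E * q))
      ≤ EpR E q y t (1 / (Λ : ℝ) ^ r)

/-- **NU4** (numerical). USES: nothing.
Everything follows from `big`: with `Z = 64 C Λ (E²+1)`, `E ≤ Z`, `E^7 ≤ Z^7 ≤ exp(7Λ/100)`,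
`4(E²+1) ≤ Z ≤ exp(Λ/100)`, `(EΛ)² ≤ Z² ≤ exp(Λ/50)`; `G ≤ Λ` from `fin` (`log E ≥ 0`), so
`E G + 20 ≤ Z²`; `⌈exp(Λ/2)⌉ ≤ exp(Λ/2) + 1`, and `exp(Λ/2) + 1 + 4 exp(Λ/10) ≤ exp Λ ≤ y`. -/
def StNU4 : Prop :=
  ∀ (r C y Λ E G : ℕ), Par r C y Λ E G →
    1200 ≤ E ∧ E ^ 7 ≤ ⌈Real.exp ((Λ : ℝ) / 2)⌉₊ ∧ 4 * (E ^ 2 + 1) ≤ ⌈Real.exp ((Λ : ℝ) / 2)⌉₊ ∧
      ⌈Real.exp ((Λ : ℝ) / 2)⌉₊ + (E * Λ) ^ 2 + E ^ 2 + 2 ≤ y ∧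
      E ^ 7 + (E * G + 20) + E ^ 2 + 2 ≤ y

/-- **NU5** (numerical). USES: nothing.
`Q' = E G + 20 ≤ 2 E G`, `e = M + Q'(q+1)`, `e ≤ (EG+1) q + Q'(q+1) ≤ 2Q'(q+1) ≤ 4 Q' q`, and
`E^7 + Q' + 1 ≤ E^8` (`G ≤ Λ ≤ E`). First term: at most `2 Q' q 8^(2q) E^(32 Q' q)/t`
(`q + 1 ≤ 2q`), of logarithm at most `q (32 Q' log E + 5 + 2 Q') - log t ≤ 40 Q' (log E + 1) q - log t`
(`log(2Q'q) ≤ 2Q' q`...), and `log t ≥ EΛ(q-1)/8 ≥ EΛq/16 ≥ 125 E G (log E + 1) q ≥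
62 Q' (log E + 1) q` by `fin`. So it is at most `exp(-22 Q' q) ≤ (1/64)^q / 4`.
Second term: `D = Q'(q+1)`, `M ≤ D - 19 q`, `(E²+2)² ≤ E^5`, so
`(E²+2)^(M+D) ≤ (E²+2)^(2D-19q) ≤ E^(5D) (E²+2)^(-19q)`, and
`(E²+1) q BdR ≤ 4^q (E²+1)^(4q) ≤ (E²+2)^(6q)`; the term is at most `E^(5D-7D) (E²+2)^(-13q) ≤
E^(-2D) ≤ (1/64)^q/4` (`D ≥ 20 q`). -/
def StNU5 : Prop :=
  ∀ (r C y Λ E G q M : ℕ) (t : ℝ), Par r C y Λ E G → 2 ≤ q → 1 ≤ t →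
    (E : ℝ) * Λ * ((q : ℝ) - 1) / 8 ≤ Real.log t → M < (E * G + 1) * q →
    ((E * G + 20 : ℕ) : ℝ) * (q + 1) * 8 ^ (q + 1) *
        (((E ^ 7 : ℕ) : ℝ) + ((E * G + 20 : ℕ) : ℝ) + 1) ^ (M + (E * G + 20) * (q + 1)) * (1 / t) +
      ((E : ℝ) ^ 2 + 1) * q * BdR E q *
        (((E : ℝ) ^ 2 + 2) ^ (M + (E * G + 20) * (q + 1)) /
          ((E ^ 7 : ℕ) : ℝ) ^ ((E * G + 20) * (q + 1))) < (1 / 64 : ℝ) ^ q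

/-- **PAR** (the parameters exist). USES: nothing.
`Λ = ⌊log y⌋`, `E = Λ^(r+1)`, `G = Nat.clog 2 (256 (E²+1)^5) + 20`, for which
`G ≤ 29 + 5 log(E²+1)/log 2 + 1 = O(log Λ)`; `Λ → ∞` as `y → ∞`. `big`: a polynomial in `Λ` is at most
`exp Λ` for large `Λ`; `fin`: `2000 G (log E + 1) = O((log Λ)²)` is at most `Λ` for large `Λ`. -/
def StPAR : Prop :=
  ∀ r C : ℕ, 1 ≤ C → ∃ y₀ : ℕ, ∀ y : ℕ, y₀ ≤ y → ∃ Λ E G : ℕ, Par r C y Λ E G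

/-- **SIL** (assembly: the logarithms of the primes `≤ y` are not simultaneously well approximable).
USES: StA3 (`Pool.Agent.Helper14.GS.StA3`), StSIG, StORD, StTOI, StNUE, StNIN, StDWN, StFIN, StNU1,
StNU2, StNU3, StNU4, StNU5, StPAR.
`C` from A3, `y₀` from PAR for `r, C`; `y ≥ y₀`, `Λ, E, G` from PAR; `log y` is between `Λ` and `Λ + 1`.
`κ = 1/Λ^r`. `θ₀ = exp(EΛ)`. Let `t ≥ θ₀` and `ν` be given and suppose `|t log p - ν p| < t^(-κ)`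
for all primes `p ≤ y`. `q = ⌈8 log t/(EΛ)⌉₊ ≥ 8`, so `EΛ(q-1)/8 ≤ log t ≤ EΛ q/8`. Let `h = E²`, `β` from
SIG, `Bd = BdR E q`; `d ≤ C^(4q)` from A3 for `4q`. NUE (`ε = t^(-κ)`) gives `ν'` with
`|t log n - ν' n| ≤ y t^(-κ)` for `1 ≤ n ≤ y`. Let `N₁ = E^7`, `N₂ = ⌈exp(Λ/2)⌉₊`, `N₃ = y - E² - 2`,
`Q = EΛ`, `ϑ = t/d`, `ε = EpR E q y t κ`, `W = WR E q y d`. For `N₁ ≤ N ≤ N₃` NIN gives `J, R` with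
`|t Phi - J - ϑR| ≤ 2(h+1) (q Bd 2^(2q) (N+h+2)^(4q)) (y t^(-κ)) ≤ ε` and `|R| ≤ W` (`N + h + 2 ≤ y`). DWN:
its hypotheses are NU1, NU2, NU4, and NU3 with TOI (`M = E q`). So `|Phi i N| ≤ 1/t` for `N₁ ≤ N ≤ N₃`,
`i ≤ q`. By ORD there is a least `M` with `mom M ≠ 0`, and `M < (EG+1) q`. FIN with `N₀ = E^7`,
`Q' = E G + 20` (`N₀ + Q' ≤ N₃` by NU4), `V = 1/t` contradicts NU5. -/
def StSIL : Prop :=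
  ∀ r : ℕ, ∃ y₀ : ℕ, ∀ y : ℕ, y₀ ≤ y → ∃ Λ : ℕ, 1200 ≤ Λ ∧ Real.log y ≤ Λ + 1 ∧
    Sim (1 / (Λ : ℝ) ^ r) y

/-- **SIM**. USES: StSIL. Apply SIL with `r + 1` (enlarge `y₀` so that `Λ` is large):
`1/Λ^(r+1) ≤ 1/(log y)^r` because `(log y)^r ≤ (Λ+1)^r ≤ Λ^(r+1)` for large `Λ` (`((Λ+1)/Λ)^r ≤ 2^r ≤ Λ`;
`Λ ≥ log y - 1`). If `κ ≤ κ'` then `θ^(-κ') ≤ θ^(-κ)` for `θ ≥ 1`, so `Sim κ y` implies `Sim κ' y`. -/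
def StSIM : Prop := ∀ r : ℕ, ∃ y₀ : ℕ, ∀ y : ℕ, y₀ ≤ y → Sim (1 / Real.log y ^ r) y

/-- **GPB** (gaps). USES: StB5, StB6 (of `Pool.Agent.Helper14.GS.St`; hypotheses
`(h5 : StB5) (h6 : StB6)`). This is exactly the proof of `Pool.Agent.Helper95.GS.B7`
(`Pool/Agent/Helper95/GS/M_B7.lean`): copy it; there `y = max y₁ 3` and `Sim κ y₁` are used, here `y` is
given with `Sim κ y`, `κ = 1/(16(A+1))`. -/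
def StGPB : Prop :=
  ∀ (A : ℝ) (y : ℕ), 0 < A → 3 ≤ y → Sim (1 / (16 * (A + 1))) y → Gap A y

/-- **GAP**. USES: StSIM, StGPB. Apply SIM with `r + 1`: for large `y`,
`1/(log y)^(r+1) ≤ 1/(16((log y)^r + 1))`, i.e. `16((log y)^r + 1) ≤ (log y)^(r+1)` (true if
`log y ≥ 32`); monotonicity of `Sim` as in SIM; GPB with `A = (log y)^r`. -/
def StGAP : Prop := ∀ r : ℕ, ∃ y₀ : ℕ, ∀ y : ℕ, y₀ ≤ y → Gap (Real.log y ^ r) y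

/-- **TWN** (numerical part of the bound for two logarithms, explicit). USES: nothing.
This is `Pool.Agent.Helper95.GS.D12` (`Pool/Agent/Helper95/GS/M_D12.lean`) with the value of `κ` made
explicit: there `κ = k₀ * T`, `T = C₁ L`, `L = 80 C₁ k₀`, `C₁ = 90 c`, `k₀ = 10 (c₀+2)`, so
`κ = 80 k₀² C₁² = 648000 k₀² c²`; `Γ = 648000 k₀²`. Copy the proof. -/
def StTWN : Prop := ∀ c₀ : ℕ, 1 ≤ c₀ → ∃ Γ : ℕ, ∀ c : ℕ, 1 ≤ c → ∃ L T k k₀ κ n₀ : ℕ,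
  κ ≤ Γ * c ^ 2 ∧ 1 ≤ L ∧ 1 ≤ T ∧ 1 ≤ k ∧
  ∀ n : ℕ, n₀ ≤ n → ∃ K : ℕ, K ≤ κ * n ∧ L ^ 2 ≤ (2 * k₀ + 1) * n ∧
    2 * L ^ 2 * (k * n) ≤ ((2 * k₀ + 1) * n + 1 - L ^ 2) * T ^ 2 ∧
    2 * (k * n) ≤ ((2 * k₀ + 1) * n + 1 - L ^ 2) * T ∧ T * (T + K) ≤ k * n * L ^ 2 ∧
    ∀ B d : ℝ, 1 ≤ B → B ≤ Real.exp n → 1 ≤ d → d ≤ Real.exp (c₀ * n) →
      d ^ (T * (k * n * L ^ 2)) * (k * n * L ^ 2).factorial *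
        (2 * ((2 : ℝ) ^ ((3 * ((2 * k₀ + 1) * n) + 1 + n) * k) * (2 * L * B) ^ T *
          Real.exp (L * c * (3 * ((2 * k₀ + 1) * n))))) ^ (k * n * L ^ 2)
        < (3 : ℝ) ^ (T * (K * (K - 1) / 2))

/-- **TWL** (linear forms in the logarithms of two primes, explicit exponent). USES: StD11 (of
`Pool.Agent.Helper14.GS.StD`), StTWN, StA3 (hypotheses `(h11 : StD11) (hN : StTWN) (hA3 : StA3)`).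
This is `Pool.Agent.Helper6.GS.D13` (`Pool/Agent/Helper6/GS/M_D13.lean`; its auxiliary theorems may be
imported) with explicit exponent: there the exponent is `2κ + 1` (or a number of this size), where
`κ ≤ Γ₀ c²` and `c = ⌈log p + log q + 1⌉ ≤ 3 (log p + log q)` (`log p + log q ≥ log 6 ≥ 1`, so
`c ≤ log p + log q + 2 ≤ 3 (log p + log q)`); so `2κ + 1 ≤ (18 Γ₀ + 1)(log p + log q)²`, and a
larger exponent gives a weaker statement (`a + b ≥ 1`). The constant `c > 0` depends on `p, q`. -/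
def StTWL : Prop := ∃ Γ : ℝ, 0 < Γ ∧ ∀ p q : ℕ, p.Prime → q.Prime → p ≠ q →
  ∃ c : ℝ, 0 < c ∧ ∀ a b : ℕ, 1 ≤ a → 1 ≤ b →
    c * ((a : ℝ) + b) ^ (-(Γ * (Real.log p + Real.log q) ^ 2)) ≤
      |a * Real.log p - b * Real.log q|

/-- **MAI** (main theorem). USES: StGAP, StTWL. Compare `Pool.Agent.Helper91.GS.T1`
(`Pool/Agent/Helper91/GS/M_T1.lean`).
Let `Γ` be the constant of TWL, `r = 2C + 1`, and `y` large: `Gap A y`, `A = (log y)^r`, and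
`4 Γ (log y)^(2C) + 1 ≤ A`. Let `P` be given; `Γ (log p + log q)² ≤ 4 Γ (log y)^(2C) ≤ A - 1` for
`p, q ∈ P`. Let `c > 0` be smaller than the constants of TWL for all pairs `p ≠ q` of `P` (finitely
many). Let `x < z` be consecutive prime powers of `⟨P⟩`, `x = p^a`, `z = q^b` (`p, q ∈ P`), `X = log x`
large. `Gap A y` gives a `y`-smooth `m ∈ ⟨P⟩` with `X < log m < X + X^(-A)`, so `z ≤ m` and
`0 < log z - log x < X^(-A)`. If `p = q` then `z ≥ 2x`, impossible. Otherwise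
`log z - log x = |a log p - b log q| ≥ c (a+b)^(-(A-1)) ≥ c (8X)^(-(A-1))` (`a log 2 ≤ X`,
`b log 2 ≤ log z ≤ 2X`, `a + b ≤ 8 X`), so `X ≤ 8^(A-1)/c`. Hence `x` is bounded, and `z ≤ 2x`
(`2x ∈ ⟨P⟩`), so there are only finitely many pairs. -/
def StMAI : Prop :=
  ∀ C : ℕ, ∃ y₀ : ℕ, ∀ y : ℕ, y₀ ≤ y → ∀ P : Finset ℕ, (∀ p ∈ P, p.Prime) →
    (∀ p : ℕ, p.Prime → p ≤ y → p ∈ P) → (∀ p ∈ P, Real.log p ≤ Real.log y ^ C) →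
    {xz : ℕ × ℕ | Pool.Agent.Helper10.EP.Consecutive (P : Set ℕ) xz.1 xz.2 ∧ IsPrimePow xz.1 ∧
      IsPrimePow xz.2}.Finite

/-- **KPR** (the first `k` primes). USES: StMAI. `C = 1`; for `k ≥ 1` let `y` be the `k`-th prime
(`Nat.nth Nat.Prime (k-1)`, `y ≥ k`), `P` the set of the primes `≤ y`, of cardinality `k`
(`Nat.nth_count`, `Nat.primeCounting'`...). Another way: `P = ((range k).image (Nat.nth Nat.Prime))`;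
`Nat.nth` is strictly increasing on the infinite set of primes, and a prime `p ≤ y` is
`Nat.nth Nat.Prime (Nat.count Nat.Prime p)`. `log p ≤ log y` for `p ∈ P`. -/
def StKPR : Prop :=
  ∃ k₀ : ℕ, ∀ k : ℕ, k₀ ≤ k →
    {xz : ℕ × ℕ | Pool.Agent.Helper10.EP.Consecutive
      (((range k).image (Nat.nth Nat.Prime) : Finset ℕ) : Set ℕ) xz.1 xz.2 ∧ IsPrimePow xz.1 ∧
      IsPrimePow xz.2}.Finite

end Pool.Agent.Helper12.XG
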